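import Pool.Agent.Q239.TC.EXT

set_option autoImplicit false
set_option linter.unusedSectionVars false

/-! Job CL of project TC: the Clifford correspondence. -/

open scoped BigOperators Classical
open Pool.Agent.Helper884 Representation Pool.Agent.H254R3.IN Pool.Agent.Y62 Pool.Agent.Q17.TC

noncomputable section

namespace Pool.Agent.Q239.TC

section gen

variable {G : Type} [Group G] [Fintype G]

/-- extension by zero -/
def ez (T : Subgroup G) (ξ : T → ℂ) (g : G) : ℂ := if h : g ∈ T then ξ ⟨g, h⟩ else 0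

/-- the induced function -/
def ind (T : Subgroup G) (ξ : T → ℂ) (g : G) : ℂ :=
  (Nat.card T : ℂ)⁻¹ * ∑ x : G, ez T ξ (x⁻¹ * g * x)

theorem ez_mem {T : Subgroup G} (ξ : T → ℂ) (t : T) : ez T ξ t = ξ t := by
  unfold ez
  rw [dif_pos t.2]

theorem ez_not {T : Subgroup G} (ξ : T → ℂ) {g : G} (h : g ∉ T) : ez T ξ g = 0 := by
  unfold ez
  rw [dif_neg h]

theorem ind_class (T : Subgroup G) (ξ : T → ℂ) : IC.IsClass (ind T ξ) := by
  intro g y
  unfold ind
  congr 1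
  refine Fintype.sum_equiv (Equiv.mulLeft y⁻¹) _ _ fun x => ?_
  congr 1
  simp only [Equiv.coe_mulLeft]
  group

theorem ind_one (T : Subgroup G) (ξ : T → ℂ) :
    (Nat.card T : ℂ) * ind T ξ 1 = Nat.card G * ξ 1 := by
  unfold ind
  have hT : (Nat.card T : ℂ) ≠ 0 := by exact_mod_cast Nat.card_pos.ne'
  have h1 : ∀ x : G, ez T ξ (x⁻¹ * 1 * x) = ξ 1 := by
    intro x
    have : x⁻¹ * 1 * x = ((1 : T) : G) := by simp
    rw [this, ez_mem]
  simp_rw [h1]
  rw [mul_inv_cancel_left₀ hT]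
  simp

/-- Frobenius reciprocity -/
theorem frob (T : Subgroup G) (ξ : T → ℂ) (f : G → ℂ) (hf : IC.IsClass f) :
    IC.B (ind T ξ) f = IC.B ξ (fun t : T => f t) := by
  have hG : (Nat.card G : ℂ) ≠ 0 := by exact_mod_cast Nat.card_pos.ne'
  have h1 : ∑ g : G, ind T ξ g * f g⁻¹ =
      (Nat.card T : ℂ)⁻¹ * ∑ x : G, ∑ g : G, ez T ξ g * f g⁻¹ := by
    unfold ind
    simp_rw [mul_assoc, ← Finset.mul_sum, Finset.sum_mul]
    congr 1
    rw [Finset.sum_comm]
    refine Finset.sum_congr rfl fun x _ => ?_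
    refine Fintype.sum_equiv (MulAut.conj x⁻¹).toEquiv _ _ fun g => ?_
    have e1 : (MulAut.conj x⁻¹).toEquiv g = x⁻¹ * g * x := by simp
    rw [e1, mul_assoc x⁻¹ g x]
    congr 1
    have := hf g⁻¹ x⁻¹
    rw [← this]
    congr 1
    group
  have h2 : ∑ g : G, ez T ξ g * f g⁻¹ = ∑ t : T, ξ t * f (t : G)⁻¹ := by
    rw [sum_sub (N := T) (fun g => ez T ξ g * f g⁻¹) (fun k hk => by rw [ez_not ξ hk, zero_mul])]
    refine Finset.sum_congr rfl fun t _ => ?_
    rw [ez_mem]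
  unfold IC.B
  rw [h1, h2, Finset.sum_const, Finset.card_univ, nsmul_eq_mul, ← Nat.card_eq_fintype_card,
    mul_left_comm, inv_mul_cancel_left₀ hG]
  rfl

/-- restriction of a class function in terms of irreducible characters -/
theorem res_sum {f : G → ℂ} (hf : IC.IsClass f) (M : Subgroup G) (η : M → ℂ) :
    IC.B (fun m : M => f m) η = ∑ ξ ∈ IC.Irr G, IC.B f ξ * IC.B (fun m : M => ξ m) η := by
  have h1 : (fun m : M => f m) = ∑ ξ ∈ IC.Irr G, IC.B f ξ • (fun m : M => ξ m) := by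
    funext m
    have := congrFun (IC.expand f hf) m
    rw [this, Finset.sum_apply, Finset.sum_apply]
    rfl
  rw [h1, IC.B_sum_left]
  simp only [IC.B_smul_left]

/-- the multiplicity as a natural number -/
def mu (H : Subgroup G) (χ : G → ℂ) (ψ : H → ℂ) : ℕ :=
  if h : ∃ n : ℕ, IC.B (fun x : H => χ x) ψ = n then h.choose else 0

theorem mu_spec (H : Subgroup G) {χ : G → ℂ} {ψ : H → ℂ} (hχ : IsIrr χ) (hψ : IsIrr ψ) :
    IC.B (fun x : H => χ x) ψ = mu H χ ψ := by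
  have h : ∃ n : ℕ, IC.B (fun x : H => χ x) ψ = n := Pool.Agent.Q21.CO.mult_nat H hχ hψ
  unfold mu
  rw [dif_pos h]
  exact h.choose_spec

/-- the degree as a natural number -/
def dg (χ : G → ℂ) : ℕ := if h : ∃ n : ℕ, 0 < n ∧ (n : ℂ) = χ 1 then h.choose else 0

theorem dg_spec {χ : G → ℂ} (hχ : IsIrr χ) : 0 < dg χ ∧ (dg χ : ℂ) = χ 1 := by
  have h := hχ.deg
  unfold dg
  rw [dif_pos h]
  exact h.choose_spec

theorem class_of_irr {χ : G → ℂ} (hχ : IsIrr χ) : IC.IsClass χ := fun g y => hχ.conj g y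

theorem class_res {f : G → ℂ} (hf : IC.IsClass f) (H : Subgroup G) :
    IC.IsClass (fun x : H => f x) := by
  intro g y
  have := hf g y
  push_cast
  exact this

/-- the sum formula for degrees -/
theorem dg_sum (N : Subgroup G) {χ : G → ℂ} (hχ : IsIrr χ) :
    dg χ = ∑ θ ∈ IC.Irr N, mu N χ θ * dg θ := by
  have h1 := congrFun (IC.expand (fun n : N => χ n) (class_res (class_of_irr hχ) N)) 1
  rw [Finset.sum_apply] at h1
  have h2 : ∀ θ ∈ IC.Irr N, (IC.B (fun n : N => χ n) θ • θ) 1 = ((mu N χ θ * dg θ : ℕ) : ℂ) := by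
    intro θ hθ
    have hθ' : IsIrr θ := IC.mem_Irr.1 hθ
    rw [Pi.smul_apply, smul_eq_mul, mu_spec N hχ hθ', ← (dg_spec hθ').2]
    push_cast
    rfl
  rw [Finset.sum_congr rfl h2] at h1
  have h3 : χ ((1 : N) : G) = dg χ := by
    rw [(dg_spec hχ).2, Subgroup.coe_one]
  change χ ((1 : N) : G) = _ at h1
  rw [h3] at h1
  exact_mod_cast h1

end gen

section cliff

variable {G : Type} [Group G] [Fintype G] {N : Subgroup G} [N.Normal] {θ : N → ℂ}
  {T : Subgroup G}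

/-- the inequality from the conjugates of `θ` -/
theorem ineq (hθ : IsIrr θ) (hT : ∀ g, g ∈ T ↔ ∀ n : N, θ (MulAut.conjNormal g n) = θ n)
    {χ : G → ℂ} (hχ : IsIrr χ) :
    Nat.card G * (mu N χ θ * dg θ) ≤ Nat.card T * dg χ := by
  let c : G → (N → ℂ) := fun g n => θ (MulAut.conjNormal g n)
  have hc : ∀ g, IsIrr (c g) := fun g => irr_comp hθ (MulAut.conjNormal g)
  have hmu : ∀ g, mu N χ (c g) = mu N χ θ := by
    intro g
    have h1 : IC.B (fun n : N => χ n) (c g) = IC.B (fun n : N => χ n) θ := by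
      unfold IC.B
      congr 1
      refine Fintype.sum_equiv (MulAut.conjNormal g).toEquiv _ _ fun n => ?_
      change χ n * θ (MulAut.conjNormal g n⁻¹) =
        χ ((MulAut.conjNormal g n : N) : G) * θ (MulAut.conjNormal g n)⁻¹
      rw [map_inv, MulAut.conjNormal_apply, hχ.conj]
    rw [mu_spec N hχ (hc g), mu_spec N hχ hθ] at h1
    exact_mod_cast h1
  have hdg : ∀ g, dg (c g) = dg θ := by
    intro g
    have h1 : c g 1 = θ 1 := by
      change θ (MulAut.conjNormal g 1) = θ 1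
      rw [map_one]
    rw [← (dg_spec (hc g)).2, ← (dg_spec hθ).2] at h1
    exact_mod_cast h1
  have hfib : ∀ θ' ∈ IC.Irr N, (Finset.univ.filter fun g => c g = θ').card ≤ Nat.card T := by
    intro θ' _
    rcases (Finset.univ.filter fun g => c g = θ').eq_empty_or_nonempty with h | ⟨g₀, h₀⟩
    · rw [h, Finset.card_empty]
      exact Nat.zero_le _
    · rw [Finset.mem_filter] at h₀
      have h1 : ∀ g ∈ Finset.univ.filter fun g => c g = θ',
          g * g₀⁻¹ ∈ Finset.univ.filter fun g => g ∈ T := by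
        intro g hg
        rw [Finset.mem_filter] at hg ⊢
        refine ⟨Finset.mem_univ _, (hT _).2 fun n => ?_⟩
        have h2 : c g = c g₀ := by rw [hg.2, h₀.2]
        have h3 := congrFun h2 (MulAut.conjNormal g₀⁻¹ n)
        change θ (MulAut.conjNormal g (MulAut.conjNormal g₀⁻¹ n)) =
          θ (MulAut.conjNormal g₀ (MulAut.conjNormal g₀⁻¹ n)) at h3
        rw [← MulAut.mul_apply, ← MulAut.mul_apply, ← map_mul, ← map_mul, mul_inv_cancel, map_one,
          MulAut.one_apply] at h3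
        exact h3
      have h2 := Finset.card_le_card_of_injOn (fun g => g * g₀⁻¹) h1
        (fun a _ b _ hab => mul_right_cancel hab)
      refine h2.trans (le_of_eq ?_)
      rw [Nat.card_eq_fintype_card, Fintype.card_subtype]
  calc Nat.card G * (mu N χ θ * dg θ) = ∑ g : G, mu N χ (c g) * dg (c g) := by
        simp_rw [hmu, hdg]
        rw [Finset.sum_const, Finset.card_univ, smul_eq_mul, Nat.card_eq_fintype_card]
    _ = ∑ θ' ∈ IC.Irr N, ∑ g ∈ Finset.univ.filter (fun g => c g = θ'),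
          mu N χ (c g) * dg (c g) := by
        rw [Finset.sum_fiberwise_of_maps_to]
        intro g _
        exact IC.mem_Irr.2 (hc g)
    _ = ∑ θ' ∈ IC.Irr N, (Finset.univ.filter fun g => c g = θ').card *
          (mu N χ θ' * dg θ') := by
        refine Finset.sum_congr rfl fun θ' _ => ?_
        rw [Finset.sum_congr rfl (g := fun _ => mu N χ θ' * dg θ') fun g hg => by
          rw [(Finset.mem_filter.1 hg).2]]
        rw [Finset.sum_const, smul_eq_mul]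
    _ ≤ ∑ θ' ∈ IC.Irr N, Nat.card T * (mu N χ θ' * dg θ') :=
        Finset.sum_le_sum fun θ' h => Nat.mul_le_mul_right _ (hfib θ' h)
    _ = Nat.card T * dg χ := by
        rw [← Finset.mul_sum, ← dg_sum N hχ]

theorem le_T (hθ : IsIrr θ) (hT : ∀ g, g ∈ T ↔ ∀ n : N, θ (MulAut.conjNormal g n) = θ n) :
    N ≤ T := by
  intro g hg
  rw [hT]
  intro n
  have h := hθ.conj n ⟨g, hg⟩
  rw [← h]
  congr 1

/-- `N` as a subgroup of `T` -/
def eT (h : N ≤ T) : N.comap T.subtype ≃* N where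
  toFun m := ⟨m, m.2⟩
  invFun n := ⟨⟨n, h n.2⟩, n.2⟩
  left_inv _ := rfl
  right_inv _ := rfl
  map_mul' _ _ := rfl

/-- the data of this section -/
structure CD (N : Subgroup G) [N.Normal] (θ : N → ℂ) (T : Subgroup G) : Prop where
  hθ : IsIrr θ
  hT : ∀ g, g ∈ T ↔ ∀ n : N, θ (MulAut.conjNormal g n) = θ n

/-- `θ` as a character of `N.comap T.subtype` -/
def tM (T : Subgroup G) (θ : N → ℂ) : N.comap T.subtype → ℂ := fun n => θ ⟨n, n.2⟩

theorem tM_irr (d : CD N θ T) : IsIrr (tM T θ) := irr_comp d.hθ (eT (le_T d.hθ d.hT))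

theorem B_tM (d : CD N θ T) (f : G → ℂ) :
    IC.B (fun m : N.comap T.subtype => f (m : T)) (tM T θ) = IC.B (fun n : N => f n) θ := by
  unfold IC.B
  rw [Nat.card_congr (eT (le_T d.hθ d.hT)).toEquiv]
  congr 1
  exact Fintype.sum_equiv (eT (le_T d.hθ d.hT)).toEquiv _ _ fun m => rfl

/-- decomposition of the multiplicity of `θ` -/
theorem mu_sum (d : CD N θ T) {χ : G → ℂ} (hχ : IsIrr χ) :
    mu N χ θ = ∑ ξ ∈ IC.Irr T, mu T χ ξ * mu (N.comap T.subtype) ξ (tM T θ) := by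
  have h1 := res_sum (class_res (class_of_irr hχ) T) (N.comap T.subtype) (tM T θ)
  have h2 := B_tM d χ
  rw [h1, mu_spec N hχ d.hθ] at h2
  have h3 : ∀ ξ ∈ IC.Irr T, IC.B (fun t : T => χ t) ξ *
      IC.B (fun m : N.comap T.subtype => ξ m) (tM T θ) =
      ((mu T χ ξ * mu (N.comap T.subtype) ξ (tM T θ) : ℕ) : ℂ) := by
    intro ξ hξ
    have hξ' : IsIrr ξ := IC.mem_Irr.1 hξ
    rw [mu_spec T hχ hξ', mu_spec _ hξ' (tM_irr d)]
    push_cast
    rfl
  rw [Finset.sum_congr rfl h3] at h2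
  exact_mod_cast h2.symm

theorem mu_pos (d : CD N θ T) {ξ : T → ℂ} (hξ : IsIrr ξ)
    (hov : Ov (N.comap T.subtype) ξ (tM T θ)) : 0 < mu (N.comap T.subtype) ξ (tM T θ) := by
  rw [Nat.pos_iff_ne_zero]
  intro h
  apply hov
  rw [mu_spec _ hξ (tM_irr d), h, Nat.cast_zero]

/-- the degree of a character of `T` over `θ` -/
theorem dg_T (lft : S_LFT) (sq : S_SQ) (d : CD N θ T) {ξ : T → ℂ} (hξ : IsIrr ξ)
    (hov : Ov (N.comap T.subtype) ξ (tM T θ)) :
    dg ξ = mu (N.comap T.subtype) ξ (tM T θ) * dg θ := by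
  obtain ⟨W, _, _, _, ρ, hρ, hρ'⟩ := tM_irr d
  have hinv : ∀ (t : T) (m : N.comap T.subtype), ρ.character (MulAut.conjNormal t m) =
      ρ.character m := by
    intro t m
    rw [← hρ']
    have h := (d.hT t).1 t.2 ⟨m, m.2⟩
    change θ _ = θ _ at h ⊢
    rw [← h]
    congr 1
  have hlf : ∀ t : T, ∃ u : W ≃ₗ[ℂ] W, Lf ρ t u := fun t =>
    lft T W (N.comap T.subtype) ρ hρ t (hinv t)
  obtain ⟨s1, -⟩ := sq T W (N.comap T.subtype) ρ hρ hlf
  have hov' : Ov (N.comap T.subtype) ξ ρ.character := by rw [← hρ']; exact hov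
  obtain ⟨e, he, h1⟩ := s1 ξ hξ hov'
  have h2 : (fun m : N.comap T.subtype => ξ m) = (e : ℂ) • tM T θ := by
    funext m
    rw [h1, hρ']
    rfl
  have h3 : (mu (N.comap T.subtype) ξ (tM T θ) : ℂ) = e := by
    rw [← mu_spec _ hξ (tM_irr d), h2, IC.B_smul_left, IC.B_irr (tM_irr d) (tM_irr d),
      if_pos rfl, mul_one]
  have h4 : (dg ξ : ℂ) = e * dg θ := by
    rw [(dg_spec hξ).2, (dg_spec d.hθ).2]
    have h5 := congrFun h2 1
    change ξ ((1 : N.comap T.subtype) : T) = _ at h5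
    rw [Subgroup.coe_one] at h5
    exact h5
  rw [← h3] at h4
  exact_mod_cast h4

/-- the degree of the induced character -/
theorem ind_deg (T : Subgroup G) {ξ : T → ℂ} (hξ : IsIrr ξ) :
    Nat.card T * ∑ χ ∈ IC.Irr G, mu T χ ξ * dg χ = Nat.card G * dg ξ := by
  have h1 := ind_one T ξ
  have h2 := congrFun (IC.expand (ind T ξ) (ind_class T ξ)) 1
  rw [Finset.sum_apply] at h2
  have h3 : ∀ χ ∈ IC.Irr G, (IC.B (ind T ξ) χ • χ) 1 = ((mu T χ ξ * dg χ : ℕ) : ℂ) := by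
    intro χ hχ
    have hχ' : IsIrr χ := IC.mem_Irr.1 hχ
    rw [Pi.smul_apply, smul_eq_mul, frob T ξ χ (class_of_irr hχ'), IC.B_comm, mu_spec T hχ' hξ,
      ← (dg_spec hχ').2]
    push_cast
    rfl
  rw [Finset.sum_congr rfl h3] at h2
  rw [h2, ← (dg_spec hξ).2] at h1
  exact_mod_cast h1

/-- the main step -/
theorem ind_eq (lft : S_LFT) (sq : S_SQ) (d : CD N θ T) {ξ : T → ℂ} (hξ : IsIrr ξ)
    (hov : Ov (N.comap T.subtype) ξ (tM T θ)) {χ : G → ℂ} (hχ : IsIrr χ) (hm : mu T χ ξ ≠ 0) :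
    ind T ξ = χ ∧ mu T χ ξ = 1 := by
  have hTpos : 0 < Nat.card T := Nat.card_pos
  have h1 := ineq d.hθ d.hT hχ
  have h2 : mu T χ ξ * mu (N.comap T.subtype) ξ (tM T θ) ≤ mu N χ θ := by
    rw [mu_sum d hχ]
    exact Finset.single_le_sum (f := fun ξ => mu T χ ξ * mu (N.comap T.subtype) ξ (tM T θ))
      (fun _ _ => Nat.zero_le _) (IC.mem_Irr.2 hξ)
  have h3 := dg_T lft sq d hξ hov
  have h4 := ind_deg T hξ
  have h5 : mu T χ ξ * ∑ χ' ∈ IC.Irr G, mu T χ' ξ * dg χ' ≤ dg χ := by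
    have h6 : Nat.card T * (mu T χ ξ * ∑ χ' ∈ IC.Irr G, mu T χ' ξ * dg χ') ≤
        Nat.card T * dg χ := by
      calc Nat.card T * (mu T χ ξ * ∑ χ' ∈ IC.Irr G, mu T χ' ξ * dg χ')
          = mu T χ ξ * (Nat.card T * ∑ χ' ∈ IC.Irr G, mu T χ' ξ * dg χ') := by ring
        _ = Nat.card G * ((mu T χ ξ * mu (N.comap T.subtype) ξ (tM T θ)) * dg θ) := by
            rw [h4, h3]
            ring
        _ ≤ Nat.card G * (mu N χ θ * dg θ) :=
            Nat.mul_le_mul_left _ (Nat.mul_le_mul_right _ h2)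
        _ ≤ _ := h1
    exact Nat.le_of_mul_le_mul_left h6 hTpos
  have h7 : ∑ χ' ∈ IC.Irr G, mu T χ' ξ * dg χ' =
      mu T χ ξ * dg χ + ∑ χ' ∈ (IC.Irr G).erase χ, mu T χ' ξ * dg χ' :=
    (Finset.add_sum_erase _ _ (IC.mem_Irr.2 hχ)).symm
  have hd := (dg_spec hχ).1
  have hm1 : 1 ≤ mu T χ ξ := Nat.one_le_iff_ne_zero.2 hm
  set m := mu T χ ξ with hmdef
  set R := ∑ χ' ∈ (IC.Irr G).erase χ, mu T χ' ξ * dg χ' with hR
  have h8 : m * dg χ + R ≤ dg χ := by
    have h9 : m * dg χ + R ≤ m * (m * dg χ + R) := Nat.le_mul_of_pos_left _ hm1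
    rw [h7] at h5
    exact h9.trans h5
  have h9 : m = 1 := by
    have h10 : m * dg χ ≤ 1 * dg χ := by omega
    have h11 := Nat.le_of_mul_le_mul_right h10 hd
    omega
  have h10 : R = 0 := by
    rw [h9, one_mul] at h8
    omega
  refine ⟨?_, h9⟩
  rw [hR, Finset.sum_eq_zero_iff] at h10
  rw [IC.expand (ind T ξ) (ind_class T ξ), Finset.sum_eq_single χ]
  · rw [frob T ξ χ (class_of_irr hχ), IC.B_comm, mu_spec T hχ hξ, ← hmdef, h9, Nat.cast_one,
      one_smul]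
  · intro χ' hχ' hne
    have hχ'' : IsIrr χ' := IC.mem_Irr.1 hχ'
    have h11 := h10 χ' (Finset.mem_erase.2 ⟨hne, hχ'⟩)
    have h12 : mu T χ' ξ = 0 := by
      rcases Nat.mul_eq_zero.1 h11 with h | h
      · exact h
      · exact absurd h (dg_spec hχ'').1.ne'
    rw [frob T ξ χ' (class_of_irr hχ''), IC.B_comm, mu_spec T hχ'' hξ, h12, Nat.cast_zero,
      zero_smul]
  · intro h
    exact absurd (IC.mem_Irr.2 hχ) h

theorem exists_chi {ξ : T → ℂ} (hξ : IsIrr ξ) : ∃ χ : G → ℂ, IsIrr χ ∧ mu T χ ξ ≠ 0 := by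
  by_contra hcon
  push Not at hcon
  have h1 := ind_deg T hξ
  rw [Finset.sum_eq_zero, mul_zero] at h1
  · have h2 : 0 < Nat.card G * dg ξ := Nat.mul_pos Nat.card_pos (dg_spec hξ).1
    omega
  · intro χ hχ
    rw [hcon χ (IC.mem_Irr.1 hχ), zero_mul]

theorem ov_of (d : CD N θ T) {ξ : T → ℂ} (hξ : IsIrr ξ)
    (hov : Ov (N.comap T.subtype) ξ (tM T θ)) {χ : G → ℂ} (hχ : IsIrr χ) (hm : mu T χ ξ ≠ 0) :
    Ov N χ θ := by
  have h2 : mu T χ ξ * mu (N.comap T.subtype) ξ (tM T θ) ≤ mu N χ θ := by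
    rw [mu_sum d hχ]
    exact Finset.single_le_sum (f := fun ξ => mu T χ ξ * mu (N.comap T.subtype) ξ (tM T θ))
      (fun _ _ => Nat.zero_le _) (IC.mem_Irr.2 hξ)
  have h3 : 0 < mu T χ ξ * mu (N.comap T.subtype) ξ (tM T θ) :=
    Nat.mul_pos (Nat.pos_of_ne_zero hm) (mu_pos d hξ hov)
  have h4 : mu N χ θ ≠ 0 := by omega
  unfold Ov
  rw [mu_spec N hχ d.hθ]
  exact_mod_cast h4

end cliff

theorem t_CL (lft : S_LFT) (sq : S_SQ) : S_CL := by
  intro G _ _ N _ θ hθ T hT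
  have d : CD N θ T := ⟨hθ, hT⟩
  have hex : ∀ ξ : {ξ : T → ℂ // IsIrr ξ ∧ Ov (N.comap T.subtype) ξ (fun n => θ ⟨n, n.2⟩)},
      ∃ χ : {χ : G → ℂ // IsIrr χ ∧ Ov N χ θ}, ind T ξ.1 = χ.1 ∧ mu T χ.1 ξ.1 = 1 := by
    intro ξ
    obtain ⟨χ, hχ, hm⟩ := exists_chi (G := G) ξ.2.1
    exact ⟨⟨χ, hχ, ov_of d ξ.2.1 ξ.2.2 hχ hm⟩, ind_eq lft sq d ξ.2.1 ξ.2.2 hχ hm⟩
  choose f hf hf' using hex
  have hinj : Function.Injective f := by
    intro ξ ξ' h
    by_contra hne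
    have hne' : ξ.1 ≠ ξ'.1 := fun h' => hne (Subtype.ext h')
    have hχ := (f ξ).2.1
    have h1 := ineq d.hθ d.hT hχ
    have h2 : mu (N.comap T.subtype) ξ.1 (tM T θ) + mu (N.comap T.subtype) ξ'.1 (tM T θ) ≤
        mu N (f ξ).1 θ := by
      rw [mu_sum d hχ]
      have h3 : ({ξ.1, ξ'.1} : Finset (T → ℂ)) ⊆ IC.Irr T := by
        intro x hx
        rw [Finset.mem_insert, Finset.mem_singleton] at hx
        rcases hx with rfl | rfl
        · exact IC.mem_Irr.2 ξ.2.1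
        · exact IC.mem_Irr.2 ξ'.2.1
      have h4 := Finset.sum_le_sum_of_subset (f := fun x =>
        mu T (f ξ).1 x * mu (N.comap T.subtype) x (tM T θ)) h3
      rw [Finset.sum_pair hne', hf' ξ, one_mul] at h4
      have h5 : mu T (f ξ).1 ξ'.1 = 1 := by
        rw [h]
        exact hf' ξ'
      rw [h5, one_mul] at h4
      exact h4
    have h3 := dg_T lft sq d ξ.2.1 ξ.2.2
    have h6 : Nat.card T * dg (f ξ).1 = Nat.card G * dg ξ.1 := by
      have h7 := ind_one T ξ.1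
      rw [hf ξ, ← (dg_spec ξ.2.1).2, ← (dg_spec hχ).2] at h7
      exact_mod_cast h7
    rw [h6, h3] at h1
    have h8 := Nat.le_of_mul_le_mul_left h1 Nat.card_pos
    have h9 := Nat.le_of_mul_le_mul_right h8 (dg_spec hθ).1
    have h10 := mu_pos d ξ'.2.1 ξ'.2.2
    omega
  have hsurj : Function.Surjective f := by
    intro χ
    have h1 : mu N χ.1 θ ≠ 0 := by
      intro h2
      apply χ.2.2
      rw [mu_spec N χ.2.1 hθ, h2, Nat.cast_zero]
    rw [mu_sum d χ.2.1] at h1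
    obtain ⟨ξ, hξ, h2⟩ := Finset.exists_ne_zero_of_sum_ne_zero h1
    have hξ' : IsIrr ξ := IC.mem_Irr.1 hξ
    have h3 : mu T χ.1 ξ ≠ 0 := left_ne_zero_of_mul h2
    have h4 : mu (N.comap T.subtype) ξ (tM T θ) ≠ 0 := right_ne_zero_of_mul h2
    have hov : Ov (N.comap T.subtype) ξ (tM T θ) := by
      unfold Ov
      rw [mu_spec _ hξ' (tM_irr d)]
      exact_mod_cast h4
    refine ⟨⟨ξ, hξ', hov⟩, Subtype.ext ?_⟩
    rw [← hf ⟨ξ, hξ', hov⟩]
    exact (ind_eq lft sq d hξ' hov χ.2.1 h3).1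
  refine ⟨Equiv.ofBijective f ⟨hinj, hsurj⟩, fun ξ g => ?_⟩
  change (f ξ).1 g = _
  rw [← hf ξ]
  rfl

end Pool.Agent.Q239.TC
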