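import Pool.Agent.Q17.TC.Stm

set_option autoImplicit false

/-! Job EXT of project TC: restriction and extension for a normal subgroup of prime index. -/

open scoped BigOperators Classical
open Pool.Agent.Helper884 Representation Pool.Agent.H254R3.IN Pool.Agent.Y62 Pool.Agent.Q17.TC

noncomputable section

namespace Pool.Agent.Q239.TC

variable {K : Type} [Group K] [Fintype K] {N : Subgroup K}

/-- a linear character with kernel `N` and values which are `|K : N|`-th roots of unity -/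
theorem exists_mu [N.Normal] (hp : N.index.Prime) : ∃ μ : K →* ℂˣ, (∀ k, μ k = 1 ↔ k ∈ N) ∧
    ∀ k, μ k ^ N.index = 1 := by
  have : Fact N.index.Prime := ⟨hp⟩
  have hcyc : IsCyclic (K ⧸ N) := isCyclic_of_prime_card (p := N.index) rfl
  obtain ⟨l, hl⟩ := IC.exists_faithful hcyc
  refine ⟨l.comp (QuotientGroup.mk' N), fun k => ?_, fun k => ?_⟩
  · rw [MonoidHom.comp_apply]
    constructor
    · intro h
      have h1 : (QuotientGroup.mk' N) k = 1 := hl (by rw [h, map_one])
      exact (QuotientGroup.eq_one_iff k).mp h1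
    · intro h
      have h1 : (QuotientGroup.mk' N) k = 1 := (QuotientGroup.eq_one_iff k).mpr h
      rw [h1, map_one]
  · rw [MonoidHom.comp_apply, ← map_pow]
    have h1 : (QuotientGroup.mk' N) k ^ N.index = 1 := by
      have := pow_card_eq_one' (G := K ⧸ N) (x := (QuotientGroup.mk' N) k)
      exact this
    rw [h1, map_one]

/-- the sum over `K` of a function supported on `N` -/
theorem sum_sub (F : K → ℂ) (hF : ∀ k, k ∉ N → F k = 0) : ∑ k : K, F k = ∑ n : N, F n := by
  rw [← Finset.sum_subtype (Finset.univ.filter (· ∈ N)) (fun x => by simp) F]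
  rw [Finset.sum_filter]
  refine Finset.sum_congr rfl fun k _ => ?_
  split_ifs with h
  · rfl
  · exact hF k h

omit [Fintype K] in
theorem card_K : (Nat.card K : ℂ) = Nat.card N * N.index := by
  rw [← Nat.cast_mul, Subgroup.card_mul_index]

/-- the key identity -/
theorem key {μ : K →* ℂˣ} (hμ : ∀ k, μ k = 1 ↔ k ∈ N) (hμp : ∀ k, μ k ^ N.index = 1)
    (hp : N.index ≠ 0) (f h : K → ℂ) :
    ∑ j ∈ Finset.range N.index, IC.B (fun k => (((μ ^ j) k : ℂˣ) : ℂ) * f k) h =
      IC.B (fun n : N => f n) (fun n : N => h n) := by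
  unfold IC.B
  rw [← Finset.mul_sum, Finset.sum_comm]
  have h1 : ∀ k : K, ∑ j ∈ Finset.range N.index, (((μ ^ j) k : ℂˣ) : ℂ) * f k * h k⁻¹ =
      if k ∈ N then (N.index : ℂ) * (f k * h k⁻¹) else 0 := by
    intro k
    have h2 : ∀ j, (((μ ^ j) k : ℂˣ) : ℂ) * f k * h k⁻¹ = ((μ k : ℂˣ) : ℂ) ^ j * (f k * h k⁻¹) := by
      intro j
      rw [MonoidHom.pow_apply, Units.val_pow_eq_pow_val, mul_assoc]
    simp_rw [h2]
    rw [← Finset.sum_mul]
    split_ifs with hk
    · rw [(hμ k).2 hk]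
      simp
    · have h3 : ((μ k : ℂˣ) : ℂ) ≠ 1 := by
        intro h4
        exact hk ((hμ k).1 (Units.ext h4))
      have h5 : ((μ k : ℂˣ) : ℂ) ^ N.index = 1 := by
        rw [← Units.val_pow_eq_pow_val, hμp, Units.val_one]
      rw [geom_sum_eq h3, h5, sub_self, zero_div, zero_mul]
  simp_rw [h1]
  rw [sum_sub (N := N) (fun k => if k ∈ N then (N.index : ℂ) * (f k * h k⁻¹) else 0)
    (fun k hk => if_neg hk)]
  have h6 : ∀ n : N, (if (n : K) ∈ N then (N.index : ℂ) * (f n * h (n : K)⁻¹) else 0) =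
      (N.index : ℂ) * (f n * h (n : K)⁻¹) := fun n => if_pos n.2
  simp_rw [h6]
  rw [← Finset.mul_sum, card_K (N := N)]
  have h7 : (Nat.card N : ℂ) ≠ 0 := by exact_mod_cast Nat.card_pos.ne'
  have h8 : (N.index : ℂ) ≠ 0 := by exact_mod_cast hp
  rw [mul_inv, mul_assoc, ← mul_assoc (N.index : ℂ)⁻¹, inv_mul_cancel₀ h8, one_mul]
  rfl

/-- the norm of a function vanishing off `N` -/
theorem norm_off {f : K → ℂ} (hp : N.index ≠ 0) (hf : ∀ k, k ∉ N → f k = 0) :
    (N.index : ℂ) * IC.B f f = IC.B (fun n : N => f n) (fun n : N => f n) := by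
  unfold IC.B
  rw [sum_sub (N := N) (fun k => f k * f k⁻¹) (fun k hk => by rw [hf k hk, zero_mul]),
    card_K (N := N)]
  have h7 : (Nat.card N : ℂ) ≠ 0 := by exact_mod_cast Nat.card_pos.ne'
  have h8 : (N.index : ℂ) ≠ 0 := by exact_mod_cast hp
  rw [mul_inv, ← mul_assoc, mul_comm (Nat.card N : ℂ)⁻¹, ← mul_assoc, mul_inv_cancel₀ h8, one_mul]
  rfl

/-- restriction to `N` -/
theorem res_irr (irn : S_IRN) [N.Normal] (hp : N.index.Prime) {χ : K → ℂ} (hχ : IsIrr χ)
    (hne : ∃ k, k ∉ N ∧ χ k ≠ 0) : IsIrr (fun n : N => χ n) := by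
  obtain ⟨μ, hμ, hμp⟩ := exists_mu hp
  have h1 := key hμ hμp hp.ne_zero χ χ
  have h2 : IC.B (fun n : N => χ n) (fun n : N => χ n) = 1 := by
    rw [← h1, Finset.sum_eq_single 0]
    · have h3 : (fun k => (((μ ^ 0) k : ℂˣ) : ℂ) * χ k) = χ := by
        funext k
        rw [pow_zero, MonoidHom.one_apply, Units.val_one, one_mul]
      rw [h3, IC.B_irr hχ hχ, if_pos rfl]
    · intro j hj hj0
      rw [IC.B_irr (irr_twist hχ (μ ^ j)) hχ, if_neg]
      intro h3
      obtain ⟨k, hk, hχk⟩ := hne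
      have h4 := congrFun h3 k
      have h5 : (((μ ^ j) k : ℂˣ) : ℂ) = 1 := mul_right_cancel₀ hχk (by rw [one_mul]; exact h4)
      rw [MonoidHom.pow_apply] at h5
      have h6 : μ k ^ j = 1 := Units.ext h5
      have h7 : orderOf (μ k) ∣ N.index := orderOf_dvd_of_pow_eq_one (hμp k)
      have h8 : orderOf (μ k) ∣ j := orderOf_dvd_of_pow_eq_one h6
      rcases (Nat.dvd_prime hp).1 h7 with h9 | h9
      · exact hk ((hμ k).1 (orderOf_eq_one_iff.1 h9))
      · rw [h9] at h8
        exact absurd (Nat.le_of_dvd (Nat.pos_of_ne_zero hj0) h8)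
          (not_le.2 (Finset.mem_range.1 hj))
    · intro h3
      exact absurd (Finset.mem_range.2 hp.pos) h3
  obtain ⟨V, _, _, _, ρ, hρ, rfl⟩ := hχ
  exact irn N V (ρ.comp N.subtype) h2

theorem t_EXT (lft : S_LFT) (sq : S_SQ) (irn : S_IRN) : S_EXT := by
  intro K _ _ N _ hp
  refine ⟨fun χ hχ hne => res_irr irn hp hχ hne, ?_, ?_, ?_⟩
  · intro θ hθ hinv
    obtain ⟨W, _, _, _, ρ, hρ, rfl⟩ := hθ
    obtain ⟨s1, s2⟩ := sq K W N ρ hρ (fun k => lft K W N ρ hρ k (hinv k))
    have hex : ∃ χ ∈ (IC.Irr K).filter (fun χ => Ov N χ ρ.character), (χ 1 / ρ.character 1) ^ 2 ≠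
        0 := by
      apply Finset.exists_ne_zero_of_sum_ne_zero
      rw [s2]
      exact_mod_cast hp.ne_zero
    obtain ⟨χ, hχ, -⟩ := hex
    rw [Finset.mem_filter] at hχ
    obtain ⟨hχ, hov⟩ := hχ
    have hχ := IC.mem_Irr.1 hχ
    obtain ⟨e, he, hres⟩ := s1 χ hχ hov
    have hθ : IsIrr ρ.character := ⟨W, _, _, inferInstance, ρ, hρ, rfl⟩
    have h1 : IC.B (fun n : N => χ n) (fun n : N => χ n) = (e : ℂ) ^ 2 := by
      have h2 : (fun n : N => χ n) = (e : ℂ) • ρ.character := by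
        funext n
        exact hres n
      rw [h2, IC.B_smul_left, IC.B_comm, IC.B_smul_left, IC.B_irr hθ hθ, if_pos rfl]
      ring
    have hne : ∃ k, k ∉ N ∧ χ k ≠ 0 := by
      by_contra hcon
      push Not at hcon
      have h3 := norm_off (N := N) hp.ne_zero hcon
      rw [h1, IC.B_irr hχ hχ, if_pos rfl, mul_one] at h3
      have h4 : N.index = e ^ 2 := by exact_mod_cast h3
      rw [h4] at hp
      exact Nat.Prime.not_prime_pow le_rfl hp
    have h5 := res_irr irn hp hχ hne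
    have h6 : (e : ℂ) ^ 2 = 1 := by
      rw [← h1, IC.B_irr h5 h5, if_pos rfl]
    have h7 : e = 1 := by
      have h8 : e ^ 2 = 1 := by exact_mod_cast h6
      rcases pow_eq_one_iff.1 h8 with h9 | h9
      · exact h9
      · exact absurd h9 two_ne_zero
    refine ⟨χ, hχ, fun n => ?_⟩
    rw [hres n, h7, Nat.cast_one, one_mul]
  · intro χ hχ hres
    by_contra hcon
    push Not at hcon
    have h3 := norm_off (N := N) hp.ne_zero hcon
    rw [IC.B_irr hχ hχ, if_pos rfl, mul_one, IC.B_irr hres hres, if_pos rfl] at h3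
    have h4 : N.index = 1 := by exact_mod_cast h3
    rw [h4] at hp
    exact Nat.not_prime_one hp
  · intro χ χ' hχ hχ' hres heq
    obtain ⟨μ, hμ, hμp⟩ := exists_mu hp
    have h1 := key hμ hμp hp.ne_zero χ χ'
    have h2 : (fun n : N => χ' n) = (fun n : N => χ n) := by
      funext n
      exact (heq n).symm
    rw [h2, IC.B_irr hres hres, if_pos rfl] at h1
    have h3 : ∃ j ∈ Finset.range N.index,
        IC.B (fun k => (((μ ^ j) k : ℂˣ) : ℂ) * χ k) χ' ≠ 0 := by
      apply Finset.exists_ne_zero_of_sum_ne_zero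
      rw [h1]
      exact one_ne_zero
    obtain ⟨j, _, hj⟩ := h3
    rw [IC.B_irr (irr_twist hχ (μ ^ j)) hχ'] at hj
    have h4 : (fun k => (((μ ^ j) k : ℂˣ) : ℂ) * χ k) = χ' := by
      by_contra hcon
      exact hj (if_neg hcon)
    refine ⟨μ ^ j, fun n => ?_, fun k => ?_⟩
    · rw [MonoidHom.pow_apply, (hμ n).2 n.2, one_pow]
    · rw [← h4]

end Pool.Agent.Q239.TC
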