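import Pool.Agent.Q17.TC.Stm

set_option autoImplicit false

/-! Job MAT of project TC: existence of a matching. -/

open scoped BigOperators Classical
open Pool.Agent.Helper884 Representation Pool.Agent.H254R3.IN Pool.Agent.Y62 Pool.Agent.Q17.TC

noncomputable section

namespace Pool.Agent.Q239.TC

variable {W W' : Type} [AddCommGroup W] [Module ℂ W] [AddCommGroup W'] [Module ℂ W']

/-- the map `v ↦ u v u'⁻¹` -/
def op (u : W ≃ₗ[ℂ] W) (u' : W' ≃ₗ[ℂ] W') : (W' →ₗ[ℂ] W) →ₗ[ℂ] (W' →ₗ[ℂ] W) :=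
  LinearMap.lcomp ℂ W (u'.symm : W' →ₗ[ℂ] W') ∘ₗ LinearMap.llcomp ℂ W' W W (u : W →ₗ[ℂ] W)

theorem op_apply (u : W ≃ₗ[ℂ] W) (u' : W' ≃ₗ[ℂ] W') (v : W' →ₗ[ℂ] W) :
    op u u' v = (u : W →ₗ[ℂ] W) ∘ₗ v ∘ₗ (u'.symm : W' →ₗ[ℂ] W') := by
  ext w
  simp [op]

theorem dT_eq (V : Submodule ℂ (W' →ₗ[ℂ] W)) (u : W ≃ₗ[ℂ] W) (u' : W' ≃ₗ[ℂ] W')
    (h : ∀ v ∈ V, op u u' v ∈ V) : dT V u u' = LinearMap.det ((op u u').restrict h) := by
  have h' : ∀ v ∈ V, (LinearMap.lcomp ℂ W (u'.symm : W' →ₗ[ℂ] W') ∘ₗ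
      LinearMap.llcomp ℂ W' W W (u : W →ₗ[ℂ] W)) v ∈ V := h
  unfold dT
  exact dif_pos h'

theorem op_mul (u₁ u₂ : W ≃ₗ[ℂ] W) (u₁' u₂' : W' ≃ₗ[ℂ] W') :
    op (u₂.trans u₁) (u₂'.trans u₁') = op u₁ u₁' ∘ₗ op u₂ u₂' := by
  ext v w
  simp [op_apply]

theorem dT_mul (V : Submodule ℂ (W' →ₗ[ℂ] W)) (u₁ u₂ : W ≃ₗ[ℂ] W) (u₁' u₂' : W' ≃ₗ[ℂ] W')
    (h₁ : ∀ v ∈ V, op u₁ u₁' v ∈ V) (h₂ : ∀ v ∈ V, op u₂ u₂' v ∈ V) :
    dT V (u₂.trans u₁) (u₂'.trans u₁') = dT V u₁ u₁' * dT V u₂ u₂' := by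
  have h : ∀ v ∈ V, op (u₂.trans u₁) (u₂'.trans u₁') v ∈ V := by
    intro v hv
    rw [op_mul]
    exact h₁ _ (h₂ _ hv)
  rw [dT_eq V _ _ h, dT_eq V _ _ h₁, dT_eq V _ _ h₂, ← LinearMap.det_comp]
  congr 1

theorem dT_smul (V : Submodule ℂ (W' →ₗ[ℂ] W)) (u v : W ≃ₗ[ℂ] W) (u' v' : W' ≃ₗ[ℂ] W') (c c' : ℂ)
    (hc' : c' ≠ 0) (hv : ∀ w, v w = c • u w) (hv' : ∀ w, v' w = c' • u' w)
    (h : ∀ x ∈ V, op u u' x ∈ V) :
    dT V v v' = (c / c') ^ Module.finrank ℂ V * dT V u u' := by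
  have e1 : op v v' = (c / c') • op u u' := by
    ext x w
    have h1 : v'.symm w = c'⁻¹ • u'.symm w := by
      rw [LinearEquiv.symm_apply_eq, hv', map_smul, LinearEquiv.apply_symm_apply, smul_smul,
        mul_inv_cancel₀ hc', one_smul]
    simp only [op_apply, LinearMap.comp_apply, LinearEquiv.coe_coe, LinearMap.smul_apply]
    rw [h1, hv, map_smul, map_smul, smul_smul, div_eq_mul_inv]
  have h' : ∀ x ∈ V, op v v' x ∈ V := by
    intro x hx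
    rw [e1]
    exact V.smul_mem _ (h x hx)
  rw [dT_eq V _ _ h', dT_eq V _ _ h, ← LinearMap.det_smul]
  congr 1
  ext x : 2
  simp only [LinearMap.coe_restrict_apply, LinearMap.smul_apply, e1, Submodule.coe_smul]

theorem dT_one (V : Submodule ℂ (W' →ₗ[ℂ] W)) (u : W ≃ₗ[ℂ] W) (u' : W' ≃ₗ[ℂ] W')
    (h : ∀ v ∈ V, op u u' v = v) : dT V u u' = 1 := by
  have h' : ∀ v ∈ V, op u u' v ∈ V := fun v hv => by rwa [h v hv]
  rw [dT_eq V _ _ h']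
  have : (op u u').restrict h' = LinearMap.id := by
    ext v : 2
    simp only [LinearMap.coe_restrict_apply, LinearMap.id_apply]
    exact h v v.2
  rw [this, LinearMap.det_id]

theorem dT_ne (V : Submodule ℂ (W' →ₗ[ℂ] W)) (u : W ≃ₗ[ℂ] W) (u' : W' ≃ₗ[ℂ] W')
    (h : ∀ v ∈ V, op u u' v ∈ V) (h' : ∀ v ∈ V, op u.symm u'.symm v ∈ V) : dT V u u' ≠ 0 := by
  have h1 := dT_mul V u u.symm u' u'.symm h h'
  rw [dT_one V (u.symm.trans u) (u'.symm.trans u') ?_] at h1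
  · intro h2
    rw [h2, zero_mul] at h1
    exact one_ne_zero h1
  · intro v _
    ext w
    simp [op_apply]

section lifts

variable {G : Type} [Group G] {N : Subgroup G} [N.Normal]

theorem lf_trans {ρ : Representation ℂ N W} {g k : G} {u v : W ≃ₗ[ℂ] W} (hu : Lf ρ g u)
    (hv : Lf ρ k v) : Lf ρ (g * k) (v.trans u) := by
  intro n w
  rw [LinearEquiv.trans_apply, LinearEquiv.trans_apply, hv, hu, map_mul]
  rfl

theorem lf_symm {ρ : Representation ℂ N W} {g : G} {u : W ≃ₗ[ℂ] W} (hu : Lf ρ g u) :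
    Lf ρ g⁻¹ u.symm := by
  intro n w
  rw [LinearEquiv.symm_apply_eq, hu]
  have : MulAut.conjNormal g (MulAut.conjNormal g⁻¹ n) = n := by
    rw [← MulAut.mul_apply, ← map_mul, mul_inv_cancel, map_one, MulAut.one_apply]
  rw [this, LinearEquiv.apply_symm_apply]

/-- the operator of an element of a representation as an equivalence -/
def eqv {L : Type} [Group L] (ρ : Representation ℂ L W) (n : L) : W ≃ₗ[ℂ] W :=
  LinearEquiv.ofLinearMap (ρ n) (ρ n⁻¹)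
    (by
      rw [← Module.End.mul_eq_comp, ← map_mul, mul_inv_cancel, map_one]
      rfl)
    (by
      rw [← Module.End.mul_eq_comp, ← map_mul, inv_mul_cancel, map_one]
      rfl)

theorem eqv_apply {L : Type} [Group L] (ρ : Representation ℂ L W) (n : L) (w : W) :
    eqv ρ n w = ρ n w := rfl

theorem eqv_symm_apply {L : Type} [Group L] (ρ : Representation ℂ L W) (n : L) (w : W) :
    (eqv ρ n).symm w = ρ n⁻¹ w := rfl

theorem lf_of_mem (ρ : Representation ℂ N W) (n : N) : Lf ρ (n : G) (eqv ρ n) := by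
  intro m w
  rw [eqv_apply, eqv_apply, ← Module.End.mul_apply, ← Module.End.mul_apply, ← map_mul, ← map_mul]
  congr 2
  ext
  simp

/-- two lifts of the same element differ by a scalar -/
theorem lf_unique [FiniteDimensional ℂ W] {ρ : Representation ℂ N W} (hρ : ρ.IsIrreducible) {g : G}
    {u v : W ≃ₗ[ℂ] W} (hu : Lf ρ g u) (hv : Lf ρ g v) : ∃ c : ℂ, c ≠ 0 ∧ ∀ w, v w = c • u w := by
  obtain ⟨c, hc⟩ := schur ρ hρ ((u.symm : W →ₗ[ℂ] W) ∘ₗ (v : W →ₗ[ℂ] W)) (by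
    intro n w
    simp only [LinearMap.comp_apply, LinearEquiv.coe_coe]
    rw [hv, LinearEquiv.symm_apply_eq, hu, LinearEquiv.apply_symm_apply])
  have h1 : ∀ w, v w = c • u w := by
    intro w
    have h2 := congrArg (fun T : W →ₗ[ℂ] W => T w) hc
    simp only [LinearMap.comp_apply, LinearEquiv.coe_coe, LinearMap.smul_apply,
      LinearMap.id_apply] at h2
    rw [LinearEquiv.symm_apply_eq, map_smul] at h2
    exact h2
  refine ⟨c, ?_, h1⟩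
  rintro rfl
  have := irr_nontrivial ρ hρ
  obtain ⟨w, hw⟩ := exists_ne (0 : W)
  have h3 := h1 w
  rw [zero_smul] at h3
  exact hw (v.map_eq_zero_iff.1 h3)

/-- a nonzero multiple of a lift is a lift -/
theorem lf_smul {ρ : Representation ℂ N W} {g : G} {u v : W ≃ₗ[ℂ] W} (hu : Lf ρ g u) (c : ℂ)
    (hv : ∀ w, v w = c • u w) : Lf ρ g v := by
  intro n w
  rw [hv, hv, hu, map_smul]

end lifts

theorem ratio {n₀ n₁ : ℕ} (hd : n₀ = n₁ + 1 ∨ n₁ = n₀ + 1) {x : ℂ} (hx : x ≠ 0)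
    (h : x ^ n₀ = x ^ n₁) : x = 1 := by
  rcases hd with rfl | rfl
  · rw [pow_succ] at h
    exact mul_left_cancel₀ (pow_ne_zero n₁ hx) (by rw [h, mul_one])
  · rw [pow_succ] at h
    exact mul_left_cancel₀ (pow_ne_zero n₀ hx) (by rw [← h, mul_one])

theorem solve {n₀ n₁ : ℕ} (hd : n₀ = n₁ + 1 ∨ n₁ = n₀ + 1) {a b : ℂ} (ha : a ≠ 0) (hb : b ≠ 0) :
    ∃ c : ℂ, c ≠ 0 ∧ (1 / c) ^ n₀ * a = (1 / c) ^ n₁ * b := by
  rcases hd with rfl | rfl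
  · refine ⟨a / b, div_ne_zero ha hb, ?_⟩
    rw [pow_succ, mul_assoc]
    congr 1
    field_simp
  · refine ⟨b / a, div_ne_zero hb ha, ?_⟩
    rw [pow_succ, mul_assoc]
    congr 1
    field_simp

theorem t_MAT : S_MAT := by
  intro G H W W' _ _ _ _ _ _ _ _ _ _ i N _ ρ ρ' hρ hρ' V₀ V₁ hint hpres hdim hL hL'
  have : (N.comap i).Normal := Subgroup.normal_comap i
  -- lifts preserve the two spaces
  have pres₀ : ∀ (h : H) (v : W ≃ₗ[ℂ] W) (v' : W' ≃ₗ[ℂ] W'), Lf ρ (i h) v → Lf ρ' h v' →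
      ∀ x ∈ V₀, op v v' x ∈ V₀ := by
    intro h v v' hv hv' x hx
    rw [op_apply]
    exact (hpres h v v' hv hv').1 x hx
  have pres₁ : ∀ (h : H) (v : W ≃ₗ[ℂ] W) (v' : W' ≃ₗ[ℂ] W'), Lf ρ (i h) v → Lf ρ' h v' →
      ∀ x ∈ V₁, op v v' x ∈ V₁ := by
    intro h v v' hv hv' x hx
    rw [op_apply]
    exact (hpres h v v' hv hv').2 x hx
  have inv : ∀ (h : H) (v : W ≃ₗ[ℂ] W), Lf ρ (i h) v → Lf ρ (i h⁻¹) v.symm := by
    intro h v hv
    rw [map_inv]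
    exact lf_symm hv
  have ne₀ : ∀ (h : H) (v : W ≃ₗ[ℂ] W) (v' : W' ≃ₗ[ℂ] W'), Lf ρ (i h) v → Lf ρ' h v' →
      dT V₀ v v' ≠ 0 := fun h v v' hv hv' =>
    dT_ne V₀ v v' (pres₀ h v v' hv hv') (pres₀ h⁻¹ _ _ (inv h v hv) (lf_symm hv'))
  have ne₁ : ∀ (h : H) (v : W ≃ₗ[ℂ] W) (v' : W' ≃ₗ[ℂ] W'), Lf ρ (i h) v → Lf ρ' h v' →
      dT V₁ v v' ≠ 0 := fun h v v' hv hv' =>
    dT_ne V₁ v v' (pres₁ h v v' hv hv') (pres₁ h⁻¹ _ _ (inv h v hv) (lf_symm hv'))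
  -- a matching pair of lifts for every `h`
  have ex : ∀ h : H, ∃ (v : W ≃ₗ[ℂ] W) (v' : W' ≃ₗ[ℂ] W'), Lf ρ (i h) v ∧ Lf ρ' h v' ∧
      dT V₀ v v' = dT V₁ v v' := by
    intro h
    obtain ⟨v, hv⟩ := hL h
    obtain ⟨v', hv'⟩ := hL' h
    obtain ⟨c, hc, hc'⟩ := solve hdim (ne₀ h v v' hv hv') (ne₁ h v v' hv hv')
    have e1 : ∀ w, (v'.trans (LinearEquiv.smulOfNeZero ℂ W' c hc)) w = c • v' w := fun w => rfl
    refine ⟨v, v'.trans (LinearEquiv.smulOfNeZero ℂ W' c hc), hv, lf_smul hv' c e1, ?_⟩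
    rw [dT_smul V₀ v v v' _ 1 c hc (fun w => (one_smul _ _).symm) e1 (pres₀ h v v' hv hv'),
      dT_smul V₁ v v v' _ 1 c hc (fun w => (one_smul _ _).symm) e1 (pres₁ h v v' hv hv')]
    exact hc'
  choose u u' hu hu' hd using ex
  have uniq : ∀ (h : H) (v : W ≃ₗ[ℂ] W) (v' : W' ≃ₗ[ℂ] W'), Lf ρ (i h) v → Lf ρ' h v' →
      dT V₀ v v' = dT V₁ v v' → ∃ c : ℂ, c ≠ 0 ∧ (∀ w, v w = c • u h w) ∧
        ∀ w, v' w = c • u' h w := by
    intro h v v' hv hv' he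
    obtain ⟨a, ha, hva⟩ := lf_unique hρ (hu h) hv
    obtain ⟨b, hb, hvb⟩ := lf_unique hρ' (hu' h) hv'
    rw [dT_smul V₀ (u h) v (u' h) v' a b hb hva hvb (pres₀ h _ _ (hu h) (hu' h)),
      dT_smul V₁ (u h) v (u' h) v' a b hb hva hvb (pres₁ h _ _ (hu h) (hu' h)), hd h] at he
    have h1 := mul_right_cancel₀ (ne₁ h _ _ (hu h) (hu' h)) he
    have h2 := ratio hdim (div_ne_zero ha hb) h1
    have h3 : a = b := by
      rw [div_eq_one_iff_eq hb] at h2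
      exact h2
    subst h3
    exact ⟨a, ha, hva, hvb⟩
  refine ⟨u, u', ⟨hu, hu', ?_, ?_⟩, uniq⟩
  · intro h k
    have l1 : Lf ρ (i (h * k)) ((u k).trans (u h)) := by
      rw [map_mul]
      exact lf_trans (hu h) (hu k)
    have l2 : Lf ρ' (h * k) ((u' k).trans (u' h)) := lf_trans (hu' h) (hu' k)
    obtain ⟨c, hc, h1, h2⟩ := uniq (h * k) _ _ l1 l2 (by
      rw [dT_mul V₀ _ _ _ _ (pres₀ h _ _ (hu h) (hu' h)) (pres₀ k _ _ (hu k) (hu' k)),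
        dT_mul V₁ _ _ _ _ (pres₁ h _ _ (hu h) (hu' h)) (pres₁ k _ _ (hu k) (hu' k)), hd h, hd k])
    refine ⟨c⁻¹, inv_ne_zero hc, fun w => ?_, fun w => ?_⟩
    · have := h1 w
      rw [LinearEquiv.trans_apply] at this
      rw [this, smul_smul, inv_mul_cancel₀ hc, one_smul]
    · have := h2 w
      rw [LinearEquiv.trans_apply] at this
      rw [this, smul_smul, inv_mul_cancel₀ hc, one_smul]
  · intro m
    have l1 : Lf ρ (i (m : H)) (eqv ρ ⟨i m, m.2⟩) := lf_of_mem ρ ⟨i m, m.2⟩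
    have l2 : Lf ρ' (m : H) (eqv ρ' m) := lf_of_mem ρ' m
    have triv : ∀ v, v ∈ V₀ ∨ v ∈ V₁ → op (eqv ρ ⟨i m, m.2⟩) (eqv ρ' m) v = v := by
      intro v hv
      have h1 := hint v hv m
      ext w
      rw [op_apply]
      have h2 := congrArg (fun T : W' →ₗ[ℂ] W => T (ρ' m⁻¹ w)) h1
      simp only [LinearMap.comp_apply] at h2 ⊢
      rw [LinearEquiv.coe_coe, LinearEquiv.coe_coe, eqv_apply, eqv_symm_apply, h2,
        ← Module.End.mul_apply, ← map_mul, mul_inv_cancel, map_one, Module.End.one_apply]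
    obtain ⟨c, hc, h1, h2⟩ := uniq m _ _ l1 l2 (by
      rw [dT_one V₀ _ _ fun v hv => triv v (Or.inl hv),
        dT_one V₁ _ _ fun v hv => triv v (Or.inr hv)])
    refine ⟨c⁻¹, inv_ne_zero hc, fun w => ?_, fun w => ?_⟩
    · have := h1 w
      rw [eqv_apply] at this
      rw [this, smul_smul, inv_mul_cancel₀ hc, one_smul]
    · have := h2 w
      rw [eqv_apply] at this
      rw [this, smul_smul, inv_mul_cancel₀ hc, one_smul]

end Pool.Agent.Q239.TC
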