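import Pool.Agent.Q239.TC.MAT

set_option autoImplicit false
set_option linter.unusedSectionVars false

/-! Job TR of project TC: the correspondence of a matching. -/

open scoped BigOperators Classical
open Pool.Agent.Helper884 Representation Pool.Agent.H254R3.IN Pool.Agent.Y62 Pool.Agent.Q17.TC

noncomputable section

namespace Pool.Agent.Q239.TC

section one

variable {N W : Type} [Group N] [Fintype N] [AddCommGroup W] [Module ℂ W] [FiniteDimensional ℂ W]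

/-- the sum in the orthogonality relation for a lift and its inverse -/
theorem ort_one (ort : S_ORT) (ρ : Representation ℂ N W) (hρ : ρ.IsIrreducible) (u : W ≃ₗ[ℂ] W) :
    ∑ n : N, LinearMap.trace ℂ W (ρ n ∘ₗ (u : W →ₗ[ℂ] W)) *
      LinearMap.trace ℂ W ((u.symm : W →ₗ[ℂ] W) ∘ₗ ρ n⁻¹) = (Nat.card N : ℂ) := by
  have h := ort N W ρ hρ (u : W →ₗ[ℂ] W) (u.symm : W →ₗ[ℂ] W)
  have h1 : ∀ n, LinearMap.trace ℂ W (ρ n ∘ₗ (u : W →ₗ[ℂ] W)) *
      LinearMap.trace ℂ W ((u.symm : W →ₗ[ℂ] W) ∘ₗ ρ n⁻¹) =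
      LinearMap.trace ℂ W ((u : W →ₗ[ℂ] W) ∘ₗ ρ n) *
        LinearMap.trace ℂ W (ρ n⁻¹ ∘ₗ (u.symm : W →ₗ[ℂ] W)) := by
    intro n
    rw [LinearMap.trace_comp_comm' (u : W →ₗ[ℂ] W) (ρ n),
      LinearMap.trace_comp_comm' (ρ n⁻¹) (u.symm : W →ₗ[ℂ] W)]
  simp_rw [h1]
  rw [h]
  have h2 : (u : W →ₗ[ℂ] W) ∘ₗ (u.symm : W →ₗ[ℂ] W) = LinearMap.id := by
    ext w
    simp
  rw [h2, LinearMap.trace_id]
  have := irr_nontrivial ρ hρ
  have h3 : (Module.finrank ℂ W : ℂ) ≠ 0 := by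
    exact_mod_cast (Module.finrank_pos (R := ℂ) (M := W)).ne'
  rw [div_mul_cancel₀ _ h3]

end one

theorem index_eq {G H : Type} [Group G] [Group H] (i : H →* G) (N : Subgroup G) [N.Normal]
    (hG : ∀ g : G, ∃ n ∈ N, ∃ h, g = n * i h) : (N.comap i).index = N.index := by
  rw [Subgroup.index_comap, ← Subgroup.relIndex_sup_right]
  have : i.range ⊔ N = ⊤ := by
    rw [eq_top_iff]
    intro g _
    obtain ⟨n, hn, h, rfl⟩ := hG g
    exact Subgroup.mul_mem _ ((le_sup_right : N ≤ i.range ⊔ N) hn)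
      ((le_sup_left : i.range ≤ i.range ⊔ N) ⟨h, rfl⟩)
  rw [this, Subgroup.relIndex_top_right]

section main

variable {G H W W' : Type} [Group G] [Fintype G] [Group H] [Fintype H]
  [AddCommGroup W] [Module ℂ W] [FiniteDimensional ℂ W] [AddCommGroup W'] [Module ℂ W']
  [FiniteDimensional ℂ W'] {i : H →* G} {N : Subgroup G} [N.Normal] {ρ : Representation ℂ N W}
  {ρ' : Representation ℂ (N.comap i) W'} {u : H → (W ≃ₗ[ℂ] W)} {u' : H → (W' ≃ₗ[ℂ] W')}

/-- the traces of `u`, `u'` on `M h` -/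
theorem mat_mul (M : Mat i N ρ ρ' u u') (m : N.comap i) (h : H) : ∃ c : ℂ, c ≠ 0 ∧
    (∀ n : N, tr ρ (u (m * h)) n = c * tr ρ (u h) (n * ⟨i m, m.2⟩)) ∧
    LinearMap.trace ℂ W' (u' (m * h) : W' →ₗ[ℂ] W') = c * tr ρ' (u' h) m := by
  obtain ⟨c, hc, h1, h2⟩ := M.mul m h
  obtain ⟨a, ha, h3, h4⟩ := M.res m
  refine ⟨c * a, mul_ne_zero hc ha, fun n => ?_, ?_⟩
  · have e : (u (m * h) : W →ₗ[ℂ] W) = (c * a) • (ρ ⟨i m, m.2⟩ ∘ₗ (u h : W →ₗ[ℂ] W)) := by
      ext w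
      simp only [LinearEquiv.coe_coe, LinearMap.smul_apply, LinearMap.comp_apply]
      rw [h1, h3, smul_smul]
    unfold tr
    rw [e, LinearMap.comp_smul, map_smul, smul_eq_mul, map_mul, Module.End.mul_eq_comp,
      LinearMap.comp_assoc]
  · have e : (u' (m * h) : W' →ₗ[ℂ] W') = (c * a) • (ρ' m ∘ₗ (u' h : W' →ₗ[ℂ] W')) := by
      ext w
      simp only [LinearEquiv.coe_coe, LinearMap.smul_apply, LinearMap.comp_apply]
      rw [h2, h4, smul_smul]
    unfold tr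
    rw [e, map_smul, smul_eq_mul]

/-- the traces at `1` -/
theorem mat_one (M : Mat i N ρ ρ' u u') : ∃ c : ℂ, c ≠ 0 ∧
    (∀ n : N, tr ρ (u 1) n = c * ρ.character n) ∧
    ∀ m : N.comap i, tr ρ' (u' 1) m = c * ρ'.character m := by
  obtain ⟨a, ha, h3, h4⟩ := M.res 1
  refine ⟨a, ha, fun n => ?_, fun m => ?_⟩
  · have e : (u 1 : W →ₗ[ℂ] W) = a • LinearMap.id := by
      ext w
      have h5 := h3 w
      have h6 : (⟨i ((1 : N.comap i) : H), (1 : N.comap i).2⟩ : N) = 1 := by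
        ext
        simp
      rw [h6, map_one] at h5
      exact h5
    unfold tr Representation.character
    rw [e, LinearMap.comp_smul, map_smul, smul_eq_mul, LinearMap.comp_id]
  · have e : (u' 1 : W' →ₗ[ℂ] W') = a • LinearMap.id := by
      ext w
      have h5 := h4 w
      rw [map_one] at h5
      exact h5
    unfold tr Representation.character
    rw [e, LinearMap.comp_smul, map_smul, smul_eq_mul, LinearMap.comp_id]

/-- the restriction of corresponding characters to the normal subgroups -/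
theorem cor_res (M : Mat i N ρ ρ' u u') {χ : G → ℂ} {ψ : H → ℂ} (hc : Cor i N ρ ρ' u u' χ ψ) :
    ∃ e : ℂ, (∀ n : N, χ n = e * ρ.character n) ∧ ∀ m : N.comap i, ψ m = e * ρ'.character m := by
  obtain ⟨s, h1, h2⟩ := hc
  obtain ⟨a, ha, h3, h4⟩ := mat_one M
  refine ⟨s 1 * a, fun n => ?_, fun m => ?_⟩
  · have := h1 n 1
    rw [map_one, mul_one, h3] at this
    rw [this, mul_assoc]
  · have := h2 m 1
    rw [mul_one, h4] at this
    rw [this, mul_assoc]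

/-- lifts of all elements of `G` -/
theorem lifts_all (hG : ∀ g : G, ∃ n ∈ N, ∃ h, g = n * i h) (M : Mat i N ρ ρ' u u') (g : G) :
    ∃ v : W ≃ₗ[ℂ] W, Lf ρ g v := by
  obtain ⟨n, hn, h, rfl⟩ := hG g
  exact ⟨_, lf_trans (lf_of_mem ρ ⟨n, hn⟩) (M.lf h)⟩

/-- existence of the corresponding character -/
theorem exists_cor (ort : S_ORT) (dec : S_DEC) (rep : S_REP) (nrm : S_NRM) (irn : S_IRN)
    (hG : ∀ g : G, ∃ n ∈ N, ∃ h, g = n * i h) (hρ : ρ.IsIrreducible) (hρ' : ρ'.IsIrreducible)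
    (M : Mat i N ρ ρ' u u') {χ : G → ℂ} (hχ : IsIrr χ) (hov : Ov N χ ρ.character) :
    ∃ ψ : H → ℂ, IsIrr ψ ∧ Ov (N.comap i) ψ ρ'.character ∧ Cor i N ρ ρ' u u' χ ψ := by
  have hd : ∀ h : H, ∃ s : ℂ, ∀ n : N, χ (n * i h) = s * tr ρ (u h) n := fun h =>
    dec G W N ρ hρ (lifts_all hG M) χ hχ hov (i h) (u h) (M.lf h)
  choose s hs using hd
  obtain ⟨Y, _, _, _, τ, hτ⟩ := rep G H W W' i N ρ ρ' u u' M χ hχ
  have hN0 : (Nat.card N : ℂ) ≠ 0 := by exact_mod_cast Nat.card_pos.ne'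
  have hτ' : ∀ h, τ.character h = s h * LinearMap.trace ℂ W' (u' h : W' →ₗ[ℂ] W') := by
    intro h
    rw [hτ]
    congr 1
    have h1 : ∀ n : N, χ (n * i h) *
        LinearMap.trace ℂ W (((u h).symm : W →ₗ[ℂ] W) ∘ₗ ρ n⁻¹) =
        s h * (LinearMap.trace ℂ W (ρ n ∘ₗ (u h : W →ₗ[ℂ] W)) *
          LinearMap.trace ℂ W (((u h).symm : W →ₗ[ℂ] W) ∘ₗ ρ n⁻¹)) := by
      intro n
      rw [hs, tr, mul_assoc]
    simp_rw [h1]
    rw [← Finset.mul_sum, ort_one ort ρ hρ, mul_left_comm, inv_mul_cancel₀ hN0, mul_one]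
  have hcor : Cor i N ρ ρ' u u' χ τ.character := by
    refine ⟨s, fun n h => hs h n, fun m h => ?_⟩
    obtain ⟨c, hc, h1, h2⟩ := mat_mul M m h
    rw [hτ', h2]
    have h3 : s (m * h) * c = s h := by
      have h4 : ∃ n : N, LinearMap.trace ℂ W (ρ n ∘ₗ (u h : W →ₗ[ℂ] W)) *
          LinearMap.trace ℂ W (((u h).symm : W →ₗ[ℂ] W) ∘ₗ ρ n⁻¹) ≠ 0 := by
        by_contra hcon
        push Not at hcon
        have h5 := ort_one ort ρ hρ (u h)
        rw [Finset.sum_eq_zero fun n _ => hcon n] at h5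
        exact hN0 h5.symm
      obtain ⟨n, hn⟩ := h4
      have h5 : tr ρ (u h) n ≠ 0 := left_ne_zero_of_mul hn
      have h6 := hs h n
      have h7 := hs (m * h) (n * (⟨i m, m.2⟩ : N)⁻¹)
      rw [h1, inv_mul_cancel_right] at h7
      have h8 : χ (((n * (⟨i m, m.2⟩ : N)⁻¹ : N) : G) * i (m * h)) = χ (n * i h) := by
        congr 1
        rw [map_mul]
        push_cast
        group
      rw [h8, h6, ← mul_assoc] at h7
      exact (mul_right_cancel₀ h5 h7).symm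
    rw [← mul_assoc, h3]
  have hB : IC.B τ.character τ.character = 1 := by
    rw [nrm G H W W' i N ρ ρ' u u' hG hρ hρ' M χ χ _ _ hcor hcor, IC.B_irr hχ hχ, if_pos rfl]
  have hirr := irn H Y τ hB
  refine ⟨τ.character, hirr, ?_, hcor⟩
  obtain ⟨e, he1, he2⟩ := cor_res M hcor
  have he : e ≠ 0 := by
    rintro rfl
    have h1 := he1 1
    rw [zero_mul, Subgroup.coe_one] at h1
    exact hχ.one_ne h1
  have h2 : (fun m : N.comap i => τ.character m) = e • ρ'.character := by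
    funext m
    exact he2 m
  have hη : IsIrr ρ'.character := ⟨W', _, _, inferInstance, ρ', hρ', rfl⟩
  unfold Ov
  rw [h2, IC.B_smul_left, IC.B_irr hη hη, if_pos rfl, mul_one]
  exact he

end main

theorem t_TR (ort : S_ORT) (dec : S_DEC) (rep : S_REP) (nrm : S_NRM) (irn : S_IRN) (sq : S_SQ) :
    S_TR := by
  intro G H W W' _ _ _ _ _ _ _ _ _ _ i N _ ρ ρ' u u' hG hρ hρ' M
  have hθ : IsIrr ρ.character := ⟨W, _, _, inferInstance, ρ, hρ, rfl⟩
  have hη : IsIrr ρ'.character := ⟨W', _, _, inferInstance, ρ', hρ', rfl⟩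
  have hex : ∀ χ : {χ : G → ℂ // IsIrr χ ∧ Ov N χ ρ.character},
      ∃ ψ : {ψ : H → ℂ // IsIrr ψ ∧ Ov (N.comap i) ψ ρ'.character}, Cor i N ρ ρ' u u' χ.1 ψ.1 := by
    intro χ
    obtain ⟨ψ, h1, h2, h3⟩ := exists_cor ort dec rep nrm irn hG hρ hρ' M χ.2.1 χ.2.2
    exact ⟨⟨ψ, h1, h2⟩, h3⟩
  choose f hf using hex
  have hinj : Function.Injective f := by
    intro χ₁ χ₂ h
    have h1 := nrm G H W W' i N ρ ρ' u u' hG hρ hρ' M _ _ _ _ (hf χ₁) (hf χ₂)
    rw [h, IC.B_irr (f χ₂).2.1 (f χ₂).2.1, if_pos rfl, IC.B_irr χ₁.2.1 χ₂.2.1] at h1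
    by_contra hne
    rw [if_neg fun h2 => hne (Subtype.ext h2)] at h1
    exact one_ne_zero h1
  have hsurj : Function.Surjective f := by
    have e1 := (sq G W N ρ hρ (lifts_all hG M)).2
    have e2 := (sq H W' (N.comap i) ρ' hρ' (fun h => ⟨_, M.lf' h⟩)).2
    rw [index_eq i N hG, ← e1] at e2
    -- the finsets
    set A := (IC.Irr G).filter (fun χ => Ov N χ ρ.character) with hA
    set C := (IC.Irr H).filter (fun ψ => Ov (N.comap i) ψ ρ'.character) with hC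
    have mA : ∀ χ, χ ∈ A ↔ IsIrr χ ∧ Ov N χ ρ.character := fun χ => by
      rw [hA, Finset.mem_filter, IC.mem_Irr]
      exact Iff.rfl
    have mC : ∀ ψ, ψ ∈ C ↔ IsIrr ψ ∧ Ov (N.comap i) ψ ρ'.character := fun ψ => by
      rw [hC, Finset.mem_filter, IC.mem_Irr]
      exact Iff.rfl
    let F : (G → ℂ) → (H → ℂ) := fun χ =>
      if h : IsIrr χ ∧ Ov N χ ρ.character then (f ⟨χ, h⟩).1 else 0
    have hF : ∀ χ (h : IsIrr χ ∧ Ov N χ ρ.character), F χ = (f ⟨χ, h⟩).1 := fun χ h => dif_pos h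
    have hsub : A.image F ⊆ C := by
      intro ψ hψ
      obtain ⟨χ, hχ, rfl⟩ := Finset.mem_image.1 hψ
      rw [hF χ ((mA χ).1 hχ), mC]
      exact (f _).2
    have hFi : Set.InjOn F A := by
      intro χ₁ h₁ χ₂ h₂ h
      have h₁' := (mA χ₁).1 h₁
      have h₂' := (mA χ₂).1 h₂
      rw [hF χ₁ h₁', hF χ₂ h₂'] at h
      exact congrArg Subtype.val (hinj (Subtype.ext h))
    have hval : ∀ χ ∈ A, (F χ 1 / ρ'.character 1) ^ 2 = (χ 1 / ρ.character 1) ^ 2 := by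
      intro χ hχ
      have h := (mA χ).1 hχ
      obtain ⟨e, h1, h2⟩ := cor_res M (hf ⟨χ, h⟩)
      have h3 := h1 1
      have h4 := h2 1
      rw [Subgroup.coe_one] at h3 h4
      change χ 1 = _ at h3
      rw [hF χ h, h4, h3, mul_div_cancel_right₀ _ hη.one_ne, mul_div_cancel_right₀ _ hθ.one_ne]
    have e3 : ∑ ψ ∈ A.image F, (ψ 1 / ρ'.character 1) ^ 2 =
        ∑ χ ∈ A, (χ 1 / ρ.character 1) ^ 2 := by
      rw [Finset.sum_image hFi]
      exact Finset.sum_congr rfl hval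
    rw [← e3, ← Finset.sum_sdiff hsub] at e2
    have e4 : ∑ ψ ∈ C \ A.image F, (ψ 1 / ρ'.character 1) ^ 2 = 0 := by
      simpa using e2
    obtain ⟨b, hb, hb'⟩ := hη.deg
    have e5 : C \ A.image F = ∅ := by
      by_contra hne
      have hne := Finset.nonempty_iff_ne_empty.2 hne
      have h1 : ∀ ψ ∈ C \ A.image F, ∃ x : ℝ, 0 < x ∧ (ψ 1 / ρ'.character 1) ^ 2 = (x : ℂ) := by
        intro ψ hψ
        have h2 := (mC ψ).1 (Finset.mem_sdiff.1 hψ).1
        obtain ⟨a, ha, ha'⟩ := h2.1.deg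
        refine ⟨((a : ℝ) / b) ^ 2, by positivity, ?_⟩
        rw [← ha', ← hb']
        push_cast
        rfl
      choose! x hx hx' using h1
      rw [Finset.sum_congr rfl hx', ← Complex.ofReal_sum] at e4
      have h3 : ∑ ψ ∈ C \ A.image F, x ψ = 0 := by exact_mod_cast e4
      exact (Finset.sum_pos hx hne).ne' h3
    intro ψ
    have h6 : ψ.1 ∈ A.image F := by
      by_contra hcon
      have h7 : ψ.1 ∈ C \ A.image F := Finset.mem_sdiff.2 ⟨(mC _).2 ψ.2, hcon⟩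
      rw [e5] at h7
      exact absurd h7 (Finset.notMem_empty _)
    obtain ⟨χ, hχ, h8⟩ := Finset.mem_image.1 h6
    rw [hF χ ((mA χ).1 hχ)] at h8
    exact ⟨⟨χ, (mA χ).1 hχ⟩, Subtype.ext h8⟩
  exact ⟨Equiv.ofBijective f ⟨hinj, hsurj⟩, fun χ => hf χ⟩

end Pool.Agent.Q239.TC
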