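import Pool.Agent.Q239.TC.KH2

set_option autoImplicit false
set_option linter.unusedSectionVars false

/-! Job KH of project TC. -/

open scoped BigOperators Classical
open Pool.Agent.Helper884 Representation Pool.Agent.H254R3.IN Pool.Agent.Y62 Pool.Agent.Q21.CO
  Pool.Agent.Q17.TC

noncomputable section

namespace Pool.Agent.Q239.TC

/-- the extension of a lift to the cyclic group -/
lemma exists_f {G W : Type} [Group G] [Fintype G] [AddCommGroup W] [Module ℂ W] (K : Subgroup G)
    [K.Normal] (R : Representation ℂ K W) (h : G) (u : W ≃ₗ[ℂ] W)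
    (hu : ∀ x x' : K, (x' : G) = h * x * h⁻¹ → ∀ w, u (R x w) = R x' (u w))
    (hn : u ^ orderOf h = 1) :
    ∃ f : Subgroup.zpowers h →* (W ≃ₗ[ℂ] W), f ⟨h, Subgroup.mem_zpowers h⟩ = u ∧
      ∀ c x w, f c (R x w) = R (act K h c x) (f c w) := by
  have hgen : ∀ x : Subgroup.zpowers h, x ∈ Subgroup.zpowers (⟨h, Subgroup.mem_zpowers h⟩ :
      Subgroup.zpowers h) := by
    rintro ⟨x, hx⟩
    obtain ⟨i, rfl⟩ := Subgroup.mem_zpowers_iff.mp hx
    exact Subgroup.mem_zpowers_iff.mpr ⟨i, rfl⟩
  have ho : orderOf u ∣ orderOf (⟨h, Subgroup.mem_zpowers h⟩ : Subgroup.zpowers h) := by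
    rw [Subgroup.orderOf_mk]
    exact orderOf_dvd_of_pow_eq_one hn
  refine ⟨monoidHomOfForallMemZpowers hgen ho, monoidHomOfForallMemZpowers_apply_gen hgen ho, ?_⟩
  set f := monoidHomOfForallMemZpowers hgen ho with hf
  have hfg : f ⟨h, Subgroup.mem_zpowers h⟩ = u := monoidHomOfForallMemZpowers_apply_gen hgen ho
  intro c
  have hc : c ∈ Submonoid.powers (⟨h, Subgroup.mem_zpowers h⟩ : Subgroup.zpowers h) :=
    mem_powers_iff_mem_zpowers.mpr (hgen c)
  obtain ⟨i, rfl⟩ := hc
  induction i with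
  | zero =>
    intro x w
    simp
  | succ i ih =>
    intro x w
    have e1 : f ((⟨h, Subgroup.mem_zpowers h⟩ : Subgroup.zpowers h) ^ (i + 1)) =
        u * f ((⟨h, Subgroup.mem_zpowers h⟩ : Subgroup.zpowers h) ^ i) := by
      rw [pow_succ', map_mul, hfg]
    have e2 : act K h ((⟨h, Subgroup.mem_zpowers h⟩ : Subgroup.zpowers h) ^ (i + 1)) x =
        act K h ⟨h, Subgroup.mem_zpowers h⟩
          (act K h ((⟨h, Subgroup.mem_zpowers h⟩ : Subgroup.zpowers h) ^ i) x) := by
      rw [pow_succ', map_mul, MulAut.mul_apply]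
    change f ((⟨h, Subgroup.mem_zpowers h⟩ : Subgroup.zpowers h) ^ (i + 1)) (R x w) =
      R (act K h ((⟨h, Subgroup.mem_zpowers h⟩ : Subgroup.zpowers h) ^ (i + 1)) x)
        (f ((⟨h, Subgroup.mem_zpowers h⟩ : Subgroup.zpowers h) ^ (i + 1)) w)
    rw [e1, e2, LinearEquiv.mul_apply, LinearEquiv.mul_apply]
    have ih' : f ((⟨h, Subgroup.mem_zpowers h⟩ : Subgroup.zpowers h) ^ i) (R x w) =
      R (act K h ((⟨h, Subgroup.mem_zpowers h⟩ : Subgroup.zpowers h) ^ i) x)
        (f ((⟨h, Subgroup.mem_zpowers h⟩ : Subgroup.zpowers h) ^ i) w) := ih x w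
    rw [ih']
    exact hu _ _ (act_apply K h _ _) _

/-- the representation of the semidirect product -/
def repG {G W : Type} [Group G] [AddCommGroup W] [Module ℂ W] (K : Subgroup G)
    [K.Normal] (R : Representation ℂ K W) (h : G) (f : Subgroup.zpowers h →* (W ≃ₗ[ℂ] W))
    (hf : ∀ c x w, f c (R x w) = R (act K h c x) (f c w)) : Representation ℂ (Gam K h) W where
  toFun g := R g.left ∘ₗ (f g.right : W →ₗ[ℂ] W)
  map_one' := by
    ext w
    simp
  map_mul' a b := by
    ext w
    simp only [SemidirectProduct.mul_left, SemidirectProduct.mul_right, map_mul,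
      LinearMap.comp_apply, LinearEquiv.coe_coe, LinearEquiv.mul_apply, Module.End.mul_apply]
    rw [hf]

lemma coe_pow' {W : Type} [AddCommGroup W] [Module ℂ W] (u : W ≃ₗ[ℂ] W) (k : ℕ) :
    ((u ^ k : W ≃ₗ[ℂ] W) : W →ₗ[ℂ] W) = (u : W →ₗ[ℂ] W) ^ k :=
  map_pow (LinearEquiv.automorphismGroup.toLinearMapMonoidHom) u k

lemma sgn_sq {p : ℕ} {ε : ℤ} (h : ε = 1 ∨ (ε = -1 ∧ p ≠ 2)) : (ε : ℂ) * ε = 1 := by
  rcases h with h | ⟨h, _⟩ <;> rw [h] <;> norm_num

theorem t_KH : S_KH := by
  intro G W _ _ _ _ _ p hp N y H P d R hR hnv h hho u hu hun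
  have hK := d.normal
  have hN := d.hN
  have hho' : ¬ p ∣ orderOf (h : G) := by rwa [Subgroup.orderOf_coe]
  have hun' : u ^ orderOf (h : G) = 1 := by
    apply LinearEquiv.toLinearMap_injective
    rw [coe_pow', Subgroup.orderOf_coe, hun]
    rfl
  obtain ⟨f, hfu, hf⟩ := exists_f (KK N y) R (h : G) u hu hun'
  obtain ⟨N', y', H', T⟩ := exists_TDG d (h : G) h.2 hho'
  obtain ⟨P', d'⟩ := T.td
  let R₁ : Representation ℂ (Gam (KK N y) (h : G)) W := repG (KK N y) R (h : G) f hf
  have hR₁ : ∀ g, R₁ g = R g.left ∘ₗ (f g.right : W →ₗ[ℂ] W) := fun g => rfl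
  let R₂ : Representation ℂ (KK N' y') W := R₁.comp (KK N' y').subtype
  have htop : ∀ x, x ∈ KK N' y' := fun x => by rw [T.top]; trivial
  have hinl : ∀ k : KK N y, R₁ (SemidirectProduct.inl k) = R k := by
    intro k
    rw [hR₁, SemidirectProduct.left_inl, SemidirectProduct.right_inl, map_one]
    rfl
  have hR₂ : R₂.IsIrreducible := by
    let g : KK N y →* KK N' y' :=
      { toFun := fun k => ⟨SemidirectProduct.inl k, htop _⟩
        map_one' := Subtype.ext (map_one _)
        map_mul' := fun a b => Subtype.ext (map_mul _ _ _) }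
    exact irr_of_comp R₂ g R (fun a => (hinl a).symm) hR
  have hirr₂ : IsIrr R₂.character := ⟨W, _, _, inferInstance, R₂, hR₂, rfl⟩
  obtain ⟨hKC1, _, _, _⟩ := t_KC _ p N' y' H' P' d'
  obtain ⟨η', hη', _, ε, hε, hval⟩ := hKC1 R₂.character hirr₂ (by
    obtain ⟨k, hk1, hk2⟩ := hnv
    refine ⟨⟨SemidirectProduct.inl k, htop _⟩, ?_, ?_⟩
    · rw [T.mN]
      exact hk1
    · have e : R₂.character ⟨SemidirectProduct.inl k, htop _⟩ = R.character k := by
        unfold Representation.character
        change LinearMap.trace ℂ W (R₁ (SemidirectProduct.inl k)) = _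
        rw [hinl]
      rw [e]
      exact hk2)
  have hη'' := id hη'
  obtain ⟨V, _, _, _, ρ, hρ, hρη⟩ := hη''
  -- the homomorphism from `K ∩ H`
  let j : (KK N y).comap H.subtype →* (KK N' y').comap H'.subtype :=
    { toFun := fun x => ⟨⟨SemidirectProduct.inl ⟨((x : H) : G), x.2⟩, (T.mH _).mpr (x : H).2⟩, htop _⟩
      map_one' := rfl
      map_mul' := fun a b => by
        apply Subtype.ext
        apply Subtype.ext
        change SemidirectProduct.inl _ = SemidirectProduct.inl _ * SemidirectProduct.inl _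
        rw [← map_mul]
        rfl }
  have hjG : ∀ x, (((j x : (KK N' y').comap H'.subtype) : H') : Gam (KK N y) (h : G)) =
      SemidirectProduct.inl ⟨((x : H) : G), x.2⟩ := fun x => rfl
  have hjinj : Function.Injective j := by
    intro a b hab
    have h1 := congrArg (fun z : (KK N' y').comap H'.subtype =>
      ((z : H') : Gam (KK N y) (h : G))) hab
    simp only [hjG] at h1
    have h2 := SemidirectProduct.inl_injective h1
    apply Subtype.ext
    apply Subtype.ext
    exact congrArg (fun k : KK N y => (k : G)) h2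
  set c₀ : Subgroup.zpowers (h : G) := ⟨(h : G), Subgroup.mem_zpowers (h : G)⟩ with hc₀
  let t₀ : (KK N' y').comap H'.subtype :=
    ⟨⟨SemidirectProduct.inr c₀, (T.mH _).mpr (by
      rw [SemidirectProduct.left_inr]
      exact H.one_mem)⟩, htop _⟩
  have ht₀G : ((t₀ : H') : Gam (KK N y) (h : G)) = SemidirectProduct.inr c₀ := rfl
  let u' : V ≃ₗ[ℂ] V := LinearEquiv.ofLinearMap (ρ t₀) (ρ t₀⁻¹)
    (by
      have h1 : ρ t₀ * ρ t₀⁻¹ = 1 := by rw [← map_mul, mul_inv_cancel, map_one]
      exact h1)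
    (by
      have h1 : ρ t₀⁻¹ * ρ t₀ = 1 := by rw [← map_mul, inv_mul_cancel, map_one]
      exact h1)
  have hu' : (u' : V →ₗ[ℂ] V) = ρ t₀ := rfl
  let R' : Representation ℂ ((KK N y).comap H.subtype) V := ρ.comp j
  have hR' : ∀ x, R' x = ρ (j x) := fun x => rfl
  -- the basic relation
  have hrel : ∀ (x : H) (hx : (x : G) ∈ KK N y), (x : G) ∉ N → ∀ k : ℕ,
      LinearMap.trace ℂ W (R ⟨x, hx⟩ ∘ₗ (u : W →ₗ[ℂ] W) ^ k) =
        ε * LinearMap.trace ℂ V (R' ⟨x, hx⟩ ∘ₗ (u' : V →ₗ[ℂ] V) ^ k) := by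
    intro x hx hxN k
    set z : (KK N' y').comap H'.subtype := j ⟨x, hx⟩ * t₀ ^ k with hz
    have hzG : ((z : H') : Gam (KK N y) (h : G)) =
        SemidirectProduct.inl ⟨(x : G), hx⟩ * SemidirectProduct.inr (c₀ ^ k) := by
      rw [hz, map_pow]
      rfl
    have h1 := hval (z : H') z.2 (by
      rw [T.mN, hzG]
      have e1 : ((SemidirectProduct.inl ⟨(x : G), hx⟩ * SemidirectProduct.inr (c₀ ^ k) :
          Gam (KK N y) (h : G)).left : G) = x := by
        rw [SemidirectProduct.mul_left, SemidirectProduct.left_inl, SemidirectProduct.left_inr,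
          map_one, mul_one]
      rw [e1]
      exact hxN)
    have h2 : R₂.character ⟨((z : H') : Gam (KK N y) (h : G)), z.2⟩ =
        LinearMap.trace ℂ W (R ⟨x, hx⟩ ∘ₗ (u : W →ₗ[ℂ] W) ^ k) := by
      unfold Representation.character
      change LinearMap.trace ℂ W (R₁ ((z : H') : Gam (KK N y) (h : G))) = _
      rw [hzG, map_mul, hinl, hR₁, SemidirectProduct.left_inr, SemidirectProduct.right_inr, map_one,
        map_pow, hfu, coe_pow']
      rfl
    have h3 : η' ⟨(z : H'), z.2⟩ = LinearMap.trace ℂ V (R' ⟨x, hx⟩ ∘ₗ (u' : V →ₗ[ℂ] V) ^ k) := by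
      rw [hρη]
      unfold Representation.character
      change LinearMap.trace ℂ V (ρ (j ⟨x, hx⟩ * t₀ ^ k)) = _
      rw [map_mul, map_pow, hu', hR']
      rfl
    rw [← h2, ← h3]
    exact h1
  have hrel0 : ∀ (x : H) (hx : (x : G) ∈ KK N y), (x : G) ∉ N →
      R.character ⟨x, hx⟩ = ε * R'.character ⟨x, hx⟩ := by
    intro x hx hxN
    have := hrel x hx hxN 0
    rw [pow_zero, pow_zero] at this
    exact this
  -- conjugation in the semidirect product
  have hconj : ∀ x x' : (KK N y).comap H.subtype, (x' : H) = h * x * h⁻¹ → t₀ * j x = j x' * t₀ := by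
    intro x x' hxx
    apply Subtype.ext
    apply Subtype.ext
    change SemidirectProduct.inr c₀ * SemidirectProduct.inl _ =
      SemidirectProduct.inl _ * SemidirectProduct.inr c₀
    have e1 : (⟨((x' : H) : G), x'.2⟩ : KK N y) =
        act (KK N y) (h : G) c₀ ⟨((x : H) : G), x.2⟩ := by
      apply Subtype.ext
      rw [act_apply]
      exact congrArg Subtype.val hxx
    rw [e1, SemidirectProduct.inl_aut, mul_assoc, ← map_mul, inv_mul_cancel, map_one, mul_one]
  refine ⟨V, inferInstance, inferInstance, inferInstance, R', u', ε, ⟨hR, ?_, hnv, ?_, hε, hrel0⟩,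
    ?_, ?_, hrel⟩
  · -- irreducibility
    apply irr_of_char t_HOM
    obtain ⟨l, hl, ho, _, ht⟩ := d.setup
    have hirrR : IsIrr R.character := ⟨W, _, _, inferInstance, R, hR, rfl⟩
    obtain ⟨hk1, _, hk3, _⟩ := t_KC G p N y H P d
    obtain ⟨η, hη, hηne, ε', hε', hval'⟩ := hk1 R.character hirrR hnv
    let inc : (KK N y).comap H.subtype →* KK N y :=
      { toFun := fun x => ⟨((x : H) : G), x.2⟩
        map_one' := rfl
        map_mul' := fun a b => rfl }
    have hψ : IsIrr ρ.character := ⟨V, _, _, inferInstance, ρ, hρ, rfl⟩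
    -- invariance of `η`
    have hMn : ((KK N y).comap H.subtype).Normal := inferInstance
    have hcj : ∀ x : (KK N y).comap H.subtype, ((h * x * h⁻¹ : H) : G) ∈ KK N y := fun x =>
      hK.conj_mem _ x.2 h
    have hηh : ∀ x : (KK N y).comap H.subtype, η (MulAut.conjNormal h x) = η x := by
      have e1 : IsIrr (fun x => η ((MulAut.conjNormal h : MulAut ((KK N y).comap H.subtype)) x)) :=
        irr_comp hη (MulAut.conjNormal h : MulAut ((KK N y).comap H.subtype))
      have e2 := (hk3 R.character R.character η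
        (fun x => η ((MulAut.conjNormal h : MulAut ((KK N y).comap H.subtype)) x)) ε' ε' hε' hε'
        hirrR hirrR hη e1 hnv hval' (by
          intro x hx hxN
          have h1 := hval' (h * x * h⁻¹) (hK.conj_mem _ hx h) (by
            intro h2
            apply hxN
            have h3 := hN.conj_mem _ h2 (h : G)⁻¹
            have h4 : (h : G)⁻¹ * ((h * x * h⁻¹ : H) : G) * ((h : G)⁻¹)⁻¹ = x := by
              change (h : G)⁻¹ * ((h : G) * x * (h : G)⁻¹) * ((h : G)⁻¹)⁻¹ = x
              group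
            rwa [h4] at h3)
          have h5 : R.character ⟨((h * x * h⁻¹ : H) : G), hK.conj_mem _ hx h⟩ =
              R.character ⟨x, hx⟩ := by
            unfold Representation.character
            have h6 : R ⟨((h * x * h⁻¹ : H) : G), hK.conj_mem _ hx h⟩ =
                (u : W →ₗ[ℂ] W) ∘ₗ R ⟨x, hx⟩ ∘ₗ (u.symm : W →ₗ[ℂ] W) := by
              ext w
              have := hu ⟨x, hx⟩ ⟨((h * x * h⁻¹ : H) : G), hK.conj_mem _ hx h⟩ rfl (u.symm w)
              rw [LinearEquiv.apply_symm_apply] at this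
              exact this.symm
            rw [h6, ← LinearMap.comp_assoc, LinearMap.trace_comp_comm', ← LinearMap.comp_assoc]
            congr 1
            ext w
            simp
          rw [← h5, h1]
          rfl)).1 rfl
      intro x
      exact (congrFun e2 x).symm
    let S : Subgroup H :=
      { carrier := {g | ∀ m : (KK N y).comap H.subtype, η (MulAut.conjNormal g m) = η m}
        mul_mem' := by
          intro a b ha hb m
          rw [map_mul, MulAut.mul_apply, ha, hb]
        one_mem' := by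
          intro m
          rw [map_one, MulAut.one_apply]
        inv_mem' := by
          intro a ha m
          rw [← ha (MulAut.conjNormal a⁻¹ m), ← MulAut.mul_apply, ← map_mul, mul_inv_cancel, map_one,
            MulAut.one_apply] }
    have hS : ∀ g, g ∈ S ↔ ∀ m : (KK N y).comap H.subtype, η (MulAut.conjNormal g m) = η m :=
      fun g => Iff.rfl
    have hSh : h ∈ S := hηh
    have hSM : ∀ m : (KK N y).comap H.subtype, (m : H) ∈ S := by
      intro m m'
      exact hη.conj m' m
    obtain ⟨x₀, hx₀, hηx₀⟩ := hηne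
    have hjT : ∀ (t : (KK N' y').comap H'.subtype), ∃ g ∈ S, ∀ x x' : (KK N y).comap H.subtype,
        j x' = t * j x * t⁻¹ → x' = MulAut.conjNormal g x := by
      intro t
      set τ : Gam (KK N y) (h : G) := ((t : H') : Gam (KK N y) (h : G)) with hτ
      have h1 : (τ.left : G) ∈ H := (T.mH _).mp (t : H').2
      obtain ⟨i, hi⟩ := Subgroup.mem_zpowers_iff.mp τ.right.2
      refine ⟨⟨τ.left, h1⟩ * h ^ i, S.mul_mem (hSM ⟨⟨τ.left, h1⟩, τ.left.2⟩) (S.zpow_mem hSh i), ?_⟩
      intro x x' hxx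
      have h2 := congrArg (fun z : (KK N' y').comap H'.subtype =>
        tot (KK N y) (h : G) ((z : H') : Gam (KK N y) (h : G))) hxx
      have e1 : ∀ x : (KK N y).comap H.subtype, tot (KK N y) (h : G)
          (((j x : (KK N' y').comap H'.subtype) : H') : Gam (KK N y) (h : G)) = ((x : H) : G) := by
        intro x
        rw [hjG, tot_apply]
        exact mul_one _
      have e2 : tot (KK N y) (h : G) τ = ((⟨τ.left, h1⟩ * h ^ i : H) : G) := by
        rw [tot_apply, ← hi]
        rfl
      apply Subtype.ext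
      apply Subtype.ext
      change ((x' : H) : G) = ((⟨τ.left, h1⟩ * h ^ i : H) : G) * ((x : H) : G) *
        ((⟨τ.left, h1⟩ * h ^ i : H) : G)⁻¹
      rw [← e2, ← e1 x, ← map_inv, ← map_mul, ← map_mul, ← e1 x']
      exact h2
    have hjn : j.range.Normal := by
      constructor
      rintro _ ⟨x, rfl⟩ t
      set τ : Gam (KK N y) (h : G) := ((t : H') : Gam (KK N y) (h : G)) with hτ
      have h1 : (τ.left : G) ∈ H := (T.mH _).mp (t : H').2
      obtain ⟨i, hi⟩ := Subgroup.mem_zpowers_iff.mp τ.right.2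
      refine ⟨MulAut.conjNormal (⟨τ.left, h1⟩ * h ^ i) x, ?_⟩
      apply Subtype.ext
      apply Subtype.ext
      change SemidirectProduct.inl _ = τ * SemidirectProduct.inl ⟨((x : H) : G), x.2⟩ * τ⁻¹
      have e3 : τ = SemidirectProduct.inl τ.left * SemidirectProduct.inr τ.right :=
        (SemidirectProduct.inl_left_mul_inr_right τ).symm
      have e4 : τ * SemidirectProduct.inl ⟨((x : H) : G), x.2⟩ * τ⁻¹ =
          SemidirectProduct.inl (τ.left * act (KK N y) (h : G) τ.right ⟨((x : H) : G), x.2⟩ *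
            τ.left⁻¹) := by
        conv_lhs => rw [e3]
        rw [map_mul, map_mul, SemidirectProduct.inl_aut, map_inv, map_inv]
        group
      rw [e4]
      congr 1
      apply Subtype.ext
      change ((⟨τ.left, h1⟩ * h ^ i : H) : G) * ((x : H) : G) *
        ((⟨τ.left, h1⟩ * h ^ i : H) : G)⁻¹ = (τ.left : G) *
          ((τ.right : G) * ((x : H) : G) * (τ.right : G)⁻¹) * (τ.left : G)⁻¹
      rw [← hi]
      change ((τ.left : G) * (h : G) ^ i) * ((x : H) : G) * ((τ.left : G) * (h : G) ^ i)⁻¹ = _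
      group
    have hεε : ((ε : ℂ) * ε') * ((ε : ℂ) * ε') = 1 := by
      calc ((ε : ℂ) * ε') * ((ε : ℂ) * ε') = ((ε : ℂ) * ε) * ((ε' : ℂ) * ε') := by ring
        _ = 1 := by rw [sgn_sq hε, sgn_sq hε', mul_one]
    refine irr_key j hjinj hjn hψ hη ((ε : ℂ) * ε') hεε (l.comp inc) p hp.out.ne_zero ?_ ?_ ?_ ?_
    · intro x
      change l (inc x) ^ p = 1
      by_cases h1 : ((inc x : KK N y) : G) ∈ N
      · rw [(hl _).mpr h1, one_pow]
      · obtain ⟨t, _, h2⟩ := ht _ h1
        have h3 : l ⟨y, d.y_mem⟩ ^ p = 1 := orderOf_dvd_iff_pow_eq_one.mp (dvd_of_eq ho)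
        rw [h2, ← pow_mul, mul_comm, pow_mul, h3, one_pow]
    · intro x hx
      have h1 : ((x : H) : G) ∉ N := fun h2 => hx ((hl _).mpr h2)
      have h2 : R.character ⟨((x : H) : G), x.2⟩ = ε * R'.character ⟨(x : H), x.2⟩ :=
        hrel0 (x : H) x.2 h1
      have h3 : R.character ⟨((x : H) : G), x.2⟩ = ε' * η ⟨(x : H), x.2⟩ := hval' (x : H) x.2 h1
      have h4 : R'.character x = (ε : ℂ) * (ε * R'.character x) := by
        rw [← mul_assoc, sgn_sq hε, one_mul]
      change R'.character x = _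
      rw [h4]
      have h5 : (ε : ℂ) * R'.character x = ε' * η x := by
        have := h2.symm.trans h3
        exact this
      rw [h5]
      ring
    · refine ⟨x₀, ?_, hηx₀⟩
      intro h1
      exact hx₀ ((hl _).mp h1)
    · intro t x x' hxx
      obtain ⟨g, hg, h1⟩ := hjT t
      have h2 := h1 x x' hxx
      constructor
      · rw [h2]
        exact hg x
      · change l (inc x') = l (inc x)
        apply lin_inv d l hl (g : G)
        rw [h2]
        rfl
  · -- nonvanishing
    obtain ⟨k, hk1, hk2⟩ := hnv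
    obtain ⟨n, hn, hn2⟩ := (t_TI G p N y H P d).2 k k.2 hk1
    have hx : n⁻¹ * (k : G) * n ∈ KK N y := by
      have := hK.conj_mem (k : G) k.2 n⁻¹
      rwa [inv_inv] at this
    have hxN : n⁻¹ * (k : G) * n ∉ N := by
      intro h1
      apply hk1
      have := hN.conj_mem _ h1 n
      have e : n * (n⁻¹ * (k : G) * n) * n⁻¹ = k := by group
      rwa [e] at this
    refine ⟨⟨⟨n⁻¹ * (k : G) * n, hn2⟩, hx⟩, hxN, ?_⟩
    intro h0
    apply hk2
    have h1 := hrel0 ⟨n⁻¹ * (k : G) * n, hn2⟩ hx hxN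
    rw [h0, mul_zero] at h1
    have h2 : (⟨n⁻¹ * (k : G) * n, hx⟩ : KK N y) =
        (⟨n, d.N_le hn⟩ : KK N y)⁻¹ * k * ((⟨n, d.N_le hn⟩ : KK N y)⁻¹)⁻¹ := by
      apply Subtype.ext
      change n⁻¹ * (k : G) * n = n⁻¹ * (k : G) * (n⁻¹)⁻¹
      rw [inv_inv]
    rw [← R.char_conj k (⟨n, d.N_le hn⟩ : KK N y)⁻¹, ← h2]
    exact h1
  · intro x x' hxx w
    have h1 := hconj x x' hxx
    have h2 := congrArg (fun z => ρ z w) h1
    simp only [map_mul, Module.End.mul_apply] at h2
    exact h2
  · rw [hu', ← map_pow]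
    have h1 : t₀ ^ orderOf h = 1 := by
      apply Subtype.ext
      apply Subtype.ext
      have h2 : (((t₀ ^ orderOf h : (KK N' y').comap H'.subtype) : H') : Gam (KK N y) (h : G)) =
          (SemidirectProduct.inr c₀) ^ orderOf h := rfl
      rw [h2, ← map_pow]
      have h3 : c₀ ^ orderOf h = 1 := by
        apply Subtype.ext
        change (h : G) ^ orderOf h = 1
        rw [← Subgroup.orderOf_coe h]
        exact pow_orderOf_eq_one _
      rw [h3, map_one]
      rfl
    rw [h1, map_one]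

end Pool.Agent.Q239.TC
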