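import Pool.Agent.Q17.TC.Stm2

set_option autoImplicit false
set_option linter.unusedSectionVars false

/-! Job MEM of project TC: blocks of `H` which induce the same block of `G`. -/

open scoped BigOperators Classical
open Pool.Agent.Helper884 Representation Pool.Agent.H254R3.IN Pool.Agent.Y62 Pool.Agent.Q21.CO
  Pool.Agent.Q17.TC

noncomputable section

namespace Pool.Agent.Q239.TC

variable {G : Type} [Group G] [Fintype G]

/-- conjugation of a Sylow subgroup of a centraliser -/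
lemma fus {p : ℕ} [hp : Fact p.Prime] {D Q : Subgroup G} (hD : IsPGroup p D) (hQ : IsPGroup p Q)
    (hc : Nat.card Q = Nat.card D) {y z : G} (hy : y ∈ Subgroup.centralizer (D : Set G))
    (hz : z ∈ Subgroup.centralizer (Q : Set G)) (h : IsConj y z) (hk : ¬ p ∣ kk D y) :
    ∃ g : G, g * y * g⁻¹ = z ∧ ∀ x ∈ D, g * x * g⁻¹ ∈ Q := by
  obtain ⟨c, hcc⟩ := isConj_iff.mp h
  set Z := Subgroup.centralizer ({z} : Set G) with hZ
  have hle1 : Q ≤ Z := le_centralizer hz
  set D2 : Subgroup G := D.map (MulAut.conj c).toMonoidHom with hD2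
  have hle2 : D2 ≤ Z := by
    intro x hx
    obtain ⟨d, hd, rfl⟩ := Subgroup.mem_map.mp hx
    rw [hZ, Subgroup.mem_centralizer_iff]
    intro w hw
    rw [Set.mem_singleton_iff.mp hw, ← hcc]
    have h1 := Subgroup.mem_centralizer_iff.mp hy d hd
    simp only [MulEquiv.toMonoidHom_eq_coe, MonoidHom.coe_coe, MulAut.conj_apply]
    have e1 : c * y * c⁻¹ * (c * d * c⁻¹) = c * (y * d) * c⁻¹ := by group
    have e2 : c * d * c⁻¹ * (c * y * c⁻¹) = c * (d * y) * c⁻¹ := by group
    rw [e1, e2, h1]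
  have hcardD2 : Nat.card D2 = Nat.card D :=
    (Nat.card_congr (D.equivMapOfInjective _ (MulAut.conj c).injective).toEquiv).symm
  have hkz : Nat.card Z = kk D y * Nat.card D := by
    rw [kk_mul hy, hZ, card_centralizer_congr h]
  have hDpos : 0 < Nat.card D := Nat.card_pos
  have hidx : ∀ E : Subgroup G, E ≤ Z → Nat.card E = Nat.card D →
      (E.subgroupOf Z).index = kk D y := by
    intro E hE hEc
    have h1 := Subgroup.card_mul_index (E.subgroupOf Z)
    rw [Nat.card_congr (Subgroup.subgroupOfEquivOfLe hE).toEquiv, hEc, hkz, mul_comm] at h1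
    exact Nat.eq_of_mul_eq_mul_right hDpos h1
  have hp1 : IsPGroup p (Q.subgroupOf Z) :=
    hQ.of_equiv (Subgroup.subgroupOfEquivOfLe hle1).symm
  have hp2 : IsPGroup p (D2.subgroupOf Z) :=
    (hD.map (MulAut.conj c).toMonoidHom).of_equiv (Subgroup.subgroupOfEquivOfLe hle2).symm
  let P1 : Sylow p Z := hp1.toSylow (by rw [hidx Q hle1 hc]; exact hk)
  let P2 : Sylow p Z := hp2.toSylow (by rw [hidx D2 hle2 hcardD2]; exact hk)
  obtain ⟨g, hg⟩ := MulAction.exists_smul_eq Z P2 P1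
  have hmem : ∀ x : Z, x ∈ D2.subgroupOf Z ↔ g * x * g⁻¹ ∈ Q.subgroupOf Z := by
    intro x
    have h1 : (g • P2 : Sylow p Z) = P1 := hg
    have h2 : ((g • P2 : Sylow p Z) : Subgroup Z) = Q.subgroupOf Z := by
      rw [h1]
      exact IsPGroup.toSylow_coe _ _
    have h3 : ((P2 : Sylow p Z) : Subgroup Z) = D2.subgroupOf Z := IsPGroup.toSylow_coe _ _
    rw [← h2, ← h3, Sylow.coe_subgroup_smul, ← MulAut.conj_apply]
    exact (Subgroup.smul_mem_pointwise_smul_iff (a := MulAut.conj g)).symm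
  refine ⟨(g : G) * c, ?_, ?_⟩
  · have hgz : z * (g : G) = (g : G) * z := Subgroup.mem_centralizer_iff.mp g.2 z rfl
    have e : (g : G) * c * y * ((g : G) * c)⁻¹ = (g : G) * (c * y * c⁻¹) * (g : G)⁻¹ := by group
    rw [e, hcc, ← hgz]
    group
  · intro d hd
    have h1 : c * d * c⁻¹ ∈ D2 := Subgroup.mem_map.mpr ⟨d, hd, rfl⟩
    have h2 := (hmem ⟨c * d * c⁻¹, hle2 h1⟩).mp (by
      rw [Subgroup.mem_subgroupOf]; exact h1)
    rw [Subgroup.mem_subgroupOf] at h2
    have e : (g : G) * c * d * ((g : G) * c)⁻¹ = (g : G) * (c * d * c⁻¹) * (g : G)⁻¹ := by group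
    rw [e]
    exact h2

lemma conj_coe' {H : Subgroup G} {y z : H} (h : IsConj y z) : IsConj (y : G) (z : G) := by
  obtain ⟨c, hc⟩ := isConj_iff.mp h
  exact isConj_iff.mpr ⟨c, by rw [← hc]; rfl⟩

/-- the induced block relation in terms of classes of `H` -/
lemma induced_sum' {O : ValuationSubring ℂ} {H : Subgroup G} {χ : G → ℂ} {θ : H → ℂ}
    (hχ : IsIrr χ) (hθ : IsIrr θ) {x : G}
    (h : omega χ x - ∑ᶠ y : {y : H // IsConj x (y : G)}, θ y / θ 1 ∈ O.nonunits) :
    red O (omega χ x) = ∑ L ∈ Finset.univ.filter (fun L : ConjClasses H =>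
      IsConj x ((rep L : H) : G)), red O (omega θ (rep L)) := by
  obtain ⟨h1, h2⟩ := red_congr (hχ.omega_mem O x) h
  rw [h2, ← red_sum _ _ (fun L _ => hθ.omega_mem O _)]
  congr 1
  rw [finsum_eq_sum_of_fintype]
  have h3 : ∑ y : {y : H // IsConj x (y : G)}, θ y / θ 1 =
      ∑ y ∈ Finset.univ.filter (fun y : H => IsConj x (y : G)), θ y / θ 1 := by
    rw [← Finset.sum_subtype (p := fun y : H => IsConj x (y : G))
      (Finset.univ.filter (fun y : H => IsConj x (y : G))) (by simp) (fun y => θ y / θ 1)]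
  rw [h3]
  exact sum_pred (fun y : H => IsConj x (y : G))
    (fun y z hyz => ⟨fun h => h.trans (conj_coe' hyz), fun h => h.trans (conj_coe' hyz).symm⟩) hθ

section

variable {p : ℕ} [hp : Fact p.Prime] {O : ValuationSubring ℂ} {H D : Subgroup G}

/-- Step A -/
lemma stepA (hD : IsPGroup p D) (hfus : ∀ g : G, (∀ x ∈ D, g⁻¹ * x * g ∈ H) → g ∈ H)
    {χ : G → ℂ} (hχ : IsIrr χ) {ψ : H → ℂ} (hψ : IsIrr ψ)
    (hind : ∀ x, omega χ x - ∑ᶠ z : {z : H // IsConj x (z : G)}, ψ z / ψ 1 ∈ O.nonunits)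
    (hdv : ∀ h : H, red O (omega ψ h) ≠ 0 →
      Nat.card D ∣ Nat.card (Subgroup.centralizer ({h} : Set H)))
    {k : H} (hk : (k : G) ∈ Subgroup.centralizer (D : Set G)) (hkk : ¬ p ∣ kk D (k : G)) :
    red O (omega χ (k : G)) = red O (omega ψ k) := by
  obtain ⟨n, hn⟩ := IsPGroup.iff_card.mp hD
  rw [induced_sum' hχ hψ (hind k), Finset.sum_eq_single (ConjClasses.mk k)]
  · rw [hψ.omega_congr (rep_mk k)]
  · intro L hL hne
    have hL' := (Finset.mem_filter.mp hL).2
    by_contra hcon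
    apply hne
    have h1 := hdv _ hcon
    rw [hn] at h1
    obtain ⟨Q, hQ⟩ := Sylow.exists_subgroup_card_pow_prime p h1
    set ι : Q →* G := H.subtype.comp ((Subgroup.centralizer ({rep L} : Set H)).subtype.comp Q.subtype)
      with hι
    have hinj : Function.Injective ι := by
      intro a b hab
      exact Subtype.ext (Subtype.ext (Subtype.ext hab))
    have hQc : Nat.card ι.range = Nat.card D := by
      rw [hn, ← hQ]
      exact (Nat.card_congr (MonoidHom.ofInjective hinj).toEquiv).symm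
    have hQp : IsPGroup p ι.range := IsPGroup.of_card (n := n) (by rw [hQc, hn])
    have hz : ((rep L : H) : G) ∈ Subgroup.centralizer (ι.range : Set G) := by
      rw [Subgroup.mem_centralizer_iff]
      rintro _ ⟨q, rfl⟩
      have h2 : (((q : Subgroup.centralizer ({rep L} : Set H)) : H) * rep L) =
          rep L * ((q : Subgroup.centralizer ({rep L} : Set H)) : H) :=
        Subgroup.mem_centralizer_singleton_iff.mp (Subtype.prop _)
      exact congrArg Subtype.val h2
    obtain ⟨g, hg1, hg2⟩ := fus hD hQp hQc hk hz hL' hkk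
    have hgH : g⁻¹ ∈ H := by
      apply hfus
      intro x hx
      rw [inv_inv]
      obtain ⟨q, hq⟩ := hg2 x hx
      rw [← hq]
      exact (((q : Subgroup.centralizer ({rep L} : Set H)) : H)).2
    have hgH' : g ∈ H := by
      have := H.inv_mem hgH
      rwa [inv_inv] at this
    rw [eq_comm, mk_eq_iff]
    refine IsConj.symm (isConj_iff.mpr ⟨⟨g, hgH'⟩, Subtype.ext ?_⟩)
    exact hg1
  · intro h
    exfalso
    apply h
    refine Finset.mem_filter.mpr ⟨Finset.mem_univ _, ?_⟩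
    exact (conj_coe' (rep_mk k)).symm

/-- `D` is a Sylow subgroup of the centraliser in `G` if it is one of the centraliser in `H`. -/
lemma syl_up (hD : IsPGroup p D) (hfus : ∀ g : G, (∀ x ∈ D, g⁻¹ * x * g ∈ H) → g ∈ H)
    (hDH : D ≤ H) {k : H} (hk : (k : G) ∈ Subgroup.centralizer (D : Set G))
    (hc : ∀ n, Nat.card D = p ^ n → ¬ p ^ (n + 1) ∣ Nat.card (Subgroup.centralizer ({k} : Set H))) :
    ¬ p ∣ kk D (k : G) := by
  obtain ⟨n, hn⟩ := IsPGroup.iff_card.mp hD
  intro h
  apply hc n hn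
  set Z := Subgroup.centralizer ({(k : G)} : Set G) with hZ
  have hle : D ≤ Z := le_centralizer hk
  have h1 : p ^ (n + 1) ∣ Nat.card Z := by
    rw [hZ, ← kk_mul hk, hn, pow_succ']
    exact Nat.mul_dvd_mul h dvd_rfl
  have h2 : Nat.card (D.subgroupOf Z) = p ^ n := by
    rw [← hn]
    exact Nat.card_congr (Subgroup.subgroupOfEquivOfLe hle).toEquiv
  obtain ⟨E, hE1, hE2⟩ := Sylow.exists_subgroup_card_pow_succ h1 h2
  -- `D` is normal in `E`
  have hnorm : ((D.subgroupOf Z).subgroupOf E).Normal := by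
    apply Subgroup.normal_of_index_eq_minFac_card
    rw [hE1, Nat.Prime.pow_minFac hp.out (Nat.succ_ne_zero n)]
    have h3 := Subgroup.card_mul_index ((D.subgroupOf Z).subgroupOf E)
    rw [Nat.card_congr (Subgroup.subgroupOfEquivOfLe hE2).toEquiv, h2, hE1, pow_succ] at h3
    exact Nat.eq_of_mul_eq_mul_left (pow_pos hp.out.pos n) h3
  have hEH : ∀ e ∈ E, (e : G) ∈ H := by
    intro e he
    apply hfus
    intro x hx
    have h4 : (⟨⟨x, hle hx⟩, hE2 (Subgroup.mem_subgroupOf.mpr hx)⟩ : E) ∈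
        (D.subgroupOf Z).subgroupOf E := by
      rw [Subgroup.mem_subgroupOf, Subgroup.mem_subgroupOf]
      exact hx
    have h5 := hnorm.conj_mem _ h4 (⟨e, he⟩ : E)⁻¹
    rw [inv_inv, Subgroup.mem_subgroupOf, Subgroup.mem_subgroupOf] at h5
    exact hDH h5
  let j : E →* Subgroup.centralizer ({k} : Set H) :=
    { toFun := fun e => ⟨⟨(e : Z), hEH e e.2⟩, by
        rw [Subgroup.mem_centralizer_singleton_iff]
        apply Subtype.ext
        exact Subgroup.mem_centralizer_singleton_iff.mp ((e : Z)).2⟩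
      map_one' := rfl
      map_mul' := fun a b => rfl }
  have hj : Function.Injective j := by
    intro a b hab
    have h6 : (((j a : Subgroup.centralizer ({k} : Set H)) : H) : G) = (((j b : Subgroup.centralizer ({k} : Set H)) : H) : G) := by
      rw [hab]
    exact Subtype.ext (Subtype.ext h6)
  rw [← hE1]
  exact Subgroup.card_dvd_of_injective j hj

/-- Step B -/
lemma stepB (hpO : (p : ℂ) ∈ O.nonunits) (hD : IsPGroup p D)
    (hfus : ∀ g : G, (∀ x ∈ D, g⁻¹ * x * g ∈ H) → g ∈ H)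
    (hDH : D ≤ H) {s : H} (hs : (s : G) ∈ Subgroup.centralizer (D : Set G))
    (hks : ¬ p ∣ kk D (s : G)) {h k : H}
    (hdv : Nat.card D ∣ Nat.card (Subgroup.centralizer ({k} : Set H)))
    (hne : red O (conv (ci h) (ci s) k) ≠ 0) :
    ∃ k₁ : H, IsConj k k₁ ∧ (k₁ : G) ∈ Subgroup.centralizer (D : Set G) ∧ ¬ p ∣ kk D (k₁ : G) := by
  obtain ⟨n, hn⟩ := IsPGroup.iff_card.mp hD
  obtain ⟨Q⟩ : Nonempty (Sylow p (Subgroup.centralizer ({k} : Set H))) := inferInstance
  have hQn : p ^ n ∣ Nat.card Q := Q.pow_dvd_card_of_pow_dvd_card (by rw [← hn]; exact hdv)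
  let ι : Q →* H := (Subgroup.centralizer ({k} : Set H)).subtype.comp
    (Q : Subgroup (Subgroup.centralizer ({k} : Set H))).subtype
  have hinj : Function.Injective ι := by
    intro a b hab
    exact Subtype.ext (Subtype.ext hab)
  have hcom : ∀ q : Q, ι q * k = k * ι q := fun q =>
    Subgroup.mem_centralizer_singleton_iff.mp (Subtype.prop (q : Subgroup.centralizer ({k} : Set H)))
  -- a fixed point
  obtain ⟨x, hx1, hx2⟩ : ∃ x : H, (∀ q : Q, ι q * x = x * ι q) ∧ IsConj s (x⁻¹ * k) := by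
    by_contra hcon
    push Not at hcon
    apply hne
    unfold conv
    have hmem : ∀ x, ci h x * ci s (x⁻¹ * k) ∈ O := fun x =>
      O.mul_mem _ _ (ind_mem O h x) (ind_mem O s _)
    rw [red_sum _ _ fun x _ => hmem x]
    rw [sum_fix (MulAut.conj.comp ι) hpO Q.isPGroup' (fun x => red O (ci h x * ci s (x⁻¹ * k)))]
    · apply Finset.sum_eq_zero
      intro x hx
      rw [Finset.mem_filter, mem_fixS] at hx
      have hfix : ∀ q : Q, ι q * x = x * ι q := by
        intro q
        have h4 := hx.2 q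
        simp only [MonoidHom.comp_apply, MulAut.conj_apply] at h4
        exact mul_inv_eq_iff_eq_mul.mp h4
      have h9 : ci s (x⁻¹ * k) = 0 := if_neg (hcon x hfix)
      rw [h9, mul_zero, red_zero]
    · intro q x
      have h4 : (MulAut.conj.comp ι) q x = ι q * x * (ι q)⁻¹ := rfl
      rw [h4]
      have h5 : (ι q * x * (ι q)⁻¹)⁻¹ * k = ι q * (x⁻¹ * k) * (ι q)⁻¹ := by
        have h6 : (ι q)⁻¹ * k = k * (ι q)⁻¹ := by
          have := hcom q
          calc (ι q)⁻¹ * k = (ι q)⁻¹ * (k * ι q) * (ι q)⁻¹ := by group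
            _ = (ι q)⁻¹ * (ι q * k) * (ι q)⁻¹ := by rw [this]
            _ = k * (ι q)⁻¹ := by group
        calc (ι q * x * (ι q)⁻¹)⁻¹ * k = ι q * x⁻¹ * ((ι q)⁻¹ * k) := by group
          _ = ι q * (x⁻¹ * k) * (ι q)⁻¹ := by rw [h6]; group
      have h6 : ci h (ι q * x * (ι q)⁻¹) = ci h x := ind_cl h x (ι q)
      have h7 : ci s (ι q * (x⁻¹ * k) * (ι q)⁻¹) = ci s (x⁻¹ * k) := ind_cl s _ (ι q)
      rw [h5, h6, h7]
  set t : H := x⁻¹ * k with ht
  have htc : ∀ q : Q, ι q * t = t * ι q := by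
    intro q
    have h7 : ι q * x⁻¹ = x⁻¹ * ι q := by
      calc ι q * x⁻¹ = x⁻¹ * (x * ι q) * x⁻¹ := by group
        _ = x⁻¹ * (ι q * x) * x⁻¹ := by rw [hx1 q]
        _ = x⁻¹ * ι q := by group
    rw [ht, ← mul_assoc, h7, mul_assoc, hcom q, mul_assoc]
  -- the image in `G`
  set R : Subgroup G := (H.subtype.comp ι).range with hR
  have hinj2 : Function.Injective (H.subtype.comp ι) := by
    intro a b hab
    exact hinj (Subtype.ext hab)
  have hRQ : Nat.card R = Nat.card Q := (Nat.card_congr (MonoidHom.ofInjective hinj2).toEquiv).symm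
  have hRt : ((t : H) : G) ∈ Subgroup.centralizer (R : Set G) := by
    rw [Subgroup.mem_centralizer_iff]
    rintro _ ⟨q, rfl⟩
    exact congrArg Subtype.val (htc q)
  have hRk : ((k : H) : G) ∈ Subgroup.centralizer (R : Set G) := by
    rw [Subgroup.mem_centralizer_iff]
    rintro _ ⟨q, rfl⟩
    exact congrArg Subtype.val (hcom q)
  have hst : IsConj (s : G) (t : G) := conj_coe' hx2
  obtain ⟨m, hm⟩ := IsPGroup.iff_card.mp Q.isPGroup'
  have hmn : m = n := by
    have h1 : n ≤ m := by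
      rw [hm] at hQn
      exact (Nat.pow_dvd_pow_iff_le_right hp.out.one_lt).mp hQn
    have h2 : p ^ m ∣ kk D (s : G) * p ^ n := by
      rw [← hn, kk_mul hs, card_centralizer_congr hst, ← hm, ← hRQ]
      exact Subgroup.card_dvd_of_le (le_centralizer hRt)
    by_contra hne'
    apply hks
    have h3 : n + 1 ≤ m := by omega
    have h4 : p ^ (n + 1) ∣ kk D (s : G) * p ^ n := (pow_dvd_pow p h3).trans h2
    rw [pow_succ'] at h4
    exact Nat.dvd_of_mul_dvd_mul_right (pow_pos hp.out.pos n) h4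
  subst hmn
  have hRD : Nat.card R = Nat.card D := by rw [hRQ, hm, hn]
  have hRp : IsPGroup p R := IsPGroup.of_card (n := m) (by rw [hRD, hn])
  obtain ⟨g, hg1, hg2⟩ := fus hD hRp hRD hs hRt hst hks
  have hgH : g⁻¹ ∈ H := by
    apply hfus
    intro x hx
    rw [inv_inv]
    obtain ⟨q, hq⟩ := hg2 x hx
    rw [← hq]
    exact (ι q).2
  set g' : H := ⟨g⁻¹, hgH⟩ with hg'
  refine ⟨g' * k * g'⁻¹, isConj_iff.mpr ⟨g', rfl⟩, ?_, ?_⟩
  · have h1 : ((g' * k * g'⁻¹ : H) : G) = g⁻¹ * k * g := by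
      change g⁻¹ * k * (g⁻¹)⁻¹ = _
      rw [inv_inv]
    rw [h1, Subgroup.mem_centralizer_iff]
    intro d hd
    have h2 := Subgroup.mem_centralizer_iff.mp hRk _ (hg2 d hd)
    calc d * (g⁻¹ * k * g) = g⁻¹ * ((g * d * g⁻¹) * k) * g := by group
      _ = g⁻¹ * (k * (g * d * g⁻¹)) * g := by rw [h2]
      _ = g⁻¹ * k * g * d := by group
  · apply syl_up hD hfus hDH
    · have h1 : ((g' * k * g'⁻¹ : H) : G) = g⁻¹ * k * g := by
        change g⁻¹ * k * (g⁻¹)⁻¹ = _
        rw [inv_inv]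
      rw [h1, Subgroup.mem_centralizer_iff]
      intro d hd
      have h2 := Subgroup.mem_centralizer_iff.mp hRk _ (hg2 d hd)
      calc d * (g⁻¹ * k * g) = g⁻¹ * ((g * d * g⁻¹) * k) * g := by group
        _ = g⁻¹ * (k * (g * d * g⁻¹)) * g := by rw [h2]
        _ = g⁻¹ * k * g * d := by group
    · intro a ha hdvd
      have h3 : IsConj k (g' * k * g'⁻¹) := isConj_iff.mpr ⟨g', rfl⟩
      rw [← card_centralizer_congr h3] at hdvd
      have h4 := Q.pow_dvd_card_of_pow_dvd_card hdvd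
      rw [hm, ← hn, ha] at h4
      have h5 := (Nat.pow_dvd_pow_iff_le_right hp.out.one_lt).mp h4
      omega

end

theorem t_MEM : S_MEM := by
  intro G _ _ p hp O hpO H D hD hDH hfus χ hχ ψ φ hψ hφ h1 h2 hdψ hdφ s hs hks hne h
  have hsψ := stepA hD hfus hχ hψ h1 hdψ hs hks
  have hsφ := stepA hD hfus hχ hφ h2 hdφ hs hks
  have key : ∀ θ : H → ℂ, IsIrr θ → red O (omega θ h) * red O (omega θ s) =
      ∑ K : ConjClasses H, red O (conv (ci h) (ci s) (rep K)) * red O (omega θ (rep K)) := by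
    intro θ hθ
    rw [← Om_red hθ (IsCl.conv (ind_cl h) (ind_cl s)) (conv_mem (ind_mem O h) (ind_mem O s)),
      Om_conv hθ (ind_cl h) (ind_cl s), Om_ind hθ, Om_ind hθ,
      red_mul (hθ.omega_mem O _) (hθ.omega_mem O _)]
  have h3 : red O (omega ψ h) * red O (omega ψ s) = red O (omega φ h) * red O (omega φ s) := by
    rw [key ψ hψ, key φ hφ]
    refine Finset.sum_congr rfl fun K _ => ?_
    by_cases hc : red O (conv (ci h) (ci s) (rep K)) = 0
    · rw [hc, zero_mul, zero_mul]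
    · by_cases hd : Nat.card D ∣ Nat.card (Subgroup.centralizer ({rep K} : Set H))
      · obtain ⟨k₁, hk1, hk2, hk3⟩ := stepB hpO hD hfus hDH hs hks hd hc
        rw [hψ.omega_congr hk1, hφ.omega_congr hk1, ← stepA hD hfus hχ hψ h1 hdψ hk2 hk3,
          ← stepA hD hfus hχ hφ h2 hdφ hk2 hk3]
      · have h4 : red O (omega ψ (rep K)) = 0 := by
          by_contra hcon
          exact hd (hdψ _ hcon)
        have h5 : red O (omega φ (rep K)) = 0 := by
          by_contra hcon
          exact hd (hdφ _ hcon)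
        rw [h4, h5]
  rw [← hsψ, ← hsφ] at h3
  exact mul_right_cancel₀ hne h3

end Pool.Agent.Q239.TC
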