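import Pool.Agent.Q17.TC.Stm3
import Pool.Agent.Q239.TC.CL
import Pool.Agent.Q239.TC.MEM

set_option autoImplicit false
set_option linter.unusedSectionVars false

/-! Job AB of project TC: characters not vanishing on `y s`. -/

open scoped BigOperators Classical
open Pool.Agent.Helper884 Representation Pool.Agent.H254R3.IN Pool.Agent.Y62 Pool.Agent.Q21.CO
  Pool.Agent.Q17.TC

noncomputable section

namespace Pool.Agent.Q239.TC

/-- an irreducible constituent of the restriction to a subgroup -/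
lemma exists_ov {G : Type} [Group G] [Fintype G] (N : Subgroup G) {χ : G → ℂ} (hχ : IsIrr χ) :
    ∃ θ : N → ℂ, IsIrr θ ∧ Ov N χ θ := by
  by_contra hcon
  push Not at hcon
  have h1 := dg_sum N hχ
  have h2 := (dg_spec hχ).1
  have h3 : ∑ θ ∈ IC.Irr N, mu N χ θ * dg θ = 0 := by
    apply Finset.sum_eq_zero
    intro θ hθ
    have hθ' : IsIrr θ := IC.mem_Irr.1 hθ
    have h4 := hcon θ hθ'
    unfold Ov at h4
    push Not at h4
    have h5 := mu_spec N hχ hθ'
    have h6 : (mu N χ θ : ℂ) = 0 := by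
      rw [← h5]
      exact h4
    have h7 : mu N χ θ = 0 := by exact_mod_cast h6
    rw [h7, zero_mul]
  omega

theorem t_AB (cl : S_CL) : S_AB := by
  intro G _ _ p hp N _ y s k hy hs hcom χ hχ hne
  obtain ⟨θ₀, hθ₀, ho⟩ := exists_ov N hχ
  set T : Subgroup G := St θ₀ with hT
  obtain ⟨f, hf⟩ := cl G N θ₀ hθ₀ T (fun g => Iff.rfl)
  obtain ⟨ξ, hξ⟩ := f.surjective ⟨χ, hχ, ho⟩
  have h1 := hf ξ (y * s)
  rw [hξ] at h1
  have h2 : ∃ x : G, x⁻¹ * (y * s) * x ∈ T := by
    by_contra hcon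
    push Not at hcon
    apply hne
    change χ (y * s) = _ at h1
    rw [h1, Finset.sum_eq_zero, mul_zero]
    intro x _
    rw [dif_neg (hcon x)]
  obtain ⟨x, hx⟩ := h2
  -- `y` is a power of `y s`
  have hcop : Nat.Coprime (orderOf y) (orderOf s) := by
    rw [hy]
    exact Nat.Coprime.pow_left _ ((Nat.Prime.coprime_iff_not_dvd hp.out).mpr hs)
  obtain ⟨m, hm1, hm2⟩ := Nat.chineseRemainder hcop 1 0
  have h3 : (y * s) ^ m = y := by
    rw [hcom.mul_pow]
    have e1 : y ^ m = y := by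
      have := (pow_eq_pow_iff_modEq (x := y) (n := m) (m := 1)).mpr hm1
      rwa [pow_one] at this
    have e2 : s ^ m = 1 := by
      have := (pow_eq_pow_iff_modEq (x := s) (n := m) (m := 0)).mpr hm2
      rwa [pow_zero] at this
    rw [e1, e2, mul_one]
  have h4 : x⁻¹ * y * x ∈ T := by
    have h5 := T.pow_mem hx m
    have h6 : (x⁻¹ * (y * s) * x) ^ m = x⁻¹ * (y * s) ^ m * x := by
      have := conj_pow (i := m) (a := x⁻¹) (b := y * s)
      rwa [inv_inv] at this
    rw [h6, h3] at h5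
    exact h5
  refine ⟨⟨fun n => θ₀ (MulAut.conjNormal x⁻¹ n), irr_comp hθ₀ _, ?_⟩, ?_⟩
  · intro n
    have h7 := h4 (MulAut.conjNormal x⁻¹ n)
    change θ₀ (MulAut.conjNormal x⁻¹ (MulAut.conjNormal y n)) = θ₀ (MulAut.conjNormal x⁻¹ n)
    rw [← h7]
    congr 1
    apply Subtype.ext
    simp [mul_assoc]
  · exact (ov_conj hχ x⁻¹).mpr ho

end Pool.Agent.Q239.TC
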