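import Pool.Agent.Q17.TC.Stm2

set_option autoImplicit false

/-! Job IND of project TC. -/

open scoped BigOperators Classical
open Pool.Agent.Helper884 Representation Pool.Agent.H254R3.IN Pool.Agent.Y62 Pool.Agent.Q21.CO
  Pool.Agent.Q17.TC

noncomputable section

namespace Pool.Agent.Q239.TC

theorem t_IND : S_IND := by
  intro G _ _ p hp O hpO H y hy hcH χ ψ hχ hψ ε hval s hys hred x
  obtain ⟨k₀, hk₀⟩ := hy
  have hyH : y ∈ H := hcH y (Commute.refl y)
  have hsH : s ∈ H := hcH s hys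
  set y' : H := ⟨y, hyH⟩ with hy'
  set g' : H := ⟨s, hsH⟩ with hg'
  have hk₀' : orderOf y' = p ^ k₀ := by
    rw [hy', Subgroup.orderOf_mk]
    exact hk₀
  have hys' : Commute y' g' := Subtype.ext hys
  have hχO : ∀ g, χ g ∈ O := fun g => hχ.val_mem O g
  have hψO : ∀ g, ψ g ∈ O := fun g => hψ.val_mem O g
  have hεO : (ε : ℂ) ∈ O := intCast_mem' ε
  have hredv : ∀ (g : G) (hg : g ∈ H), Commute y g →
      red O (χ g) = red O (ε : ℂ) * red O (ψ ⟨g, hg⟩) := by
    intro g hg hc
    rw [← red_mul hεO (hψO _)]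
    exact (red_eq_iff (hχO g) (O.mul_mem _ _ hεO (hψO _))).mpr (hval g hg hc)
  have h1 : red O (χ s) = red O (ε : ℂ) * red O (ψ g') := hredv s hsH hys
  have hψs : red O (ψ g') ≠ 0 := by
    intro h
    rw [h, mul_zero] at h1
    exact hred h1
  have hε0 : red O (ε : ℂ) ≠ 0 := by
    intro h
    rw [h, zero_mul] at h1
    exact hred h1
  -- the two sums
  let f' : H → ℂ := fun h => ci x (h : G)
  have hf'cl : IsCl f' := fun a b => ind_cl x (a : G) (b : G)
  have hfO : ∀ z, ci x z ∈ O := ind_mem O x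
  have hA : red O (omega χ x) * red O (χ s) = ∑ z : G, red O (ci x z * χ (z * s)) := by
    rw [← red_mul (hχ.omega_mem O x) (hχO s), ← red_sum _ _ fun z _ => O.mul_mem _ _ (hfO z) (hχO _),
      ← Om_ind hχ x, ← conv_scalar hχ (ind_cl x) s]
  have hB : red O (Om f' ψ) * red O (ψ g') = ∑ z : H, red O (f' z * ψ (z * g')) := by
    rw [← red_mul (Om_mem hψ hf'cl fun z => hfO z) (hψO g'),
      ← red_sum Finset.univ (fun z => f' z * ψ (z * g')) fun z _ =>
        O.mul_mem _ _ (hfO z) (hψO _), ← conv_scalar hψ hf'cl g']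
  have hyP : IsPGroup p (Subgroup.zpowers y) := by
    apply IsPGroup.of_card (n := k₀)
    rw [Nat.card_zpowers, hk₀]
  have hyP' : IsPGroup p (Subgroup.zpowers y') := by
    apply IsPGroup.of_card (n := k₀)
    rw [Nat.card_zpowers, hk₀']
  have hA2 := sum_fix (MulAut.conj.comp (Subgroup.zpowers y).subtype) hpO hyP
    (fun z => red O (ci x z * χ (z * s))) (by
      rintro ⟨a, ha⟩ z
      have hag : Commute a s := by
        obtain ⟨j, rfl⟩ := Subgroup.mem_zpowers_iff.mp ha
        exact hys.zpow_left j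
      have e1 : (MulAut.conj.comp (Subgroup.zpowers y).subtype) ⟨a, ha⟩ z = a * z * a⁻¹ := rfl
      have e2 : a * z * a⁻¹ * s = a * (z * s) * a⁻¹ := by
        have : a⁻¹ * s = s * a⁻¹ := (hag.inv_left).eq
        rw [mul_assoc, this]
        group
      have e3 : ci x (a * z * a⁻¹) = ci x z := ind_cl x z a
      change red O (ci x ((MulAut.conj.comp (Subgroup.zpowers y).subtype) ⟨a, ha⟩ z) *
        χ ((MulAut.conj.comp (Subgroup.zpowers y).subtype) ⟨a, ha⟩ z * s)) = _
      rw [e1, e2, e3, hχ.conj])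
  have hB2 := sum_fix (MulAut.conj.comp (Subgroup.zpowers y').subtype) hpO hyP'
    (fun z => red O (f' z * ψ (z * g'))) (by
      rintro ⟨a, ha⟩ z
      have hag : Commute a g' := by
        obtain ⟨j, rfl⟩ := Subgroup.mem_zpowers_iff.mp ha
        exact hys'.zpow_left j
      have e1 : (MulAut.conj.comp (Subgroup.zpowers y').subtype) ⟨a, ha⟩ z = a * z * a⁻¹ := rfl
      have e2 : a * z * a⁻¹ * g' = a * (z * g') * a⁻¹ := by
        have : a⁻¹ * g' = g' * a⁻¹ := (hag.inv_left).eq
        rw [mul_assoc, this]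
        group
      have e3 : f' (a * z * a⁻¹) = f' z := hf'cl z a
      change red O (f' ((MulAut.conj.comp (Subgroup.zpowers y').subtype) ⟨a, ha⟩ z) *
        ψ ((MulAut.conj.comp (Subgroup.zpowers y').subtype) ⟨a, ha⟩ z * g')) = _
      rw [e1, e2, e3, hψ.conj])
  have hfixG : ∀ z : G, z ∈ fixS (MulAut.conj.comp (Subgroup.zpowers y).subtype) → y * z = z * y := by
    intro z hz
    have h2 := (mem_fixS _).mp hz ⟨y, Subgroup.mem_zpowers y⟩
    have e1 : (MulAut.conj.comp (Subgroup.zpowers y).subtype) ⟨y, Subgroup.mem_zpowers y⟩ z =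
      y * z * y⁻¹ := rfl
    rw [e1] at h2
    exact mul_inv_eq_iff_eq_mul.mp h2
  have hfixG' : ∀ z : G, y * z = z * y → z ∈ fixS (MulAut.conj.comp (Subgroup.zpowers y).subtype) := by
    intro z hz
    rw [mem_fixS]
    rintro ⟨a, ha⟩
    have hag : Commute a z := by
      obtain ⟨j, rfl⟩ := Subgroup.mem_zpowers_iff.mp ha
      exact Commute.zpow_left hz j
    have e1 : (MulAut.conj.comp (Subgroup.zpowers y).subtype) ⟨a, ha⟩ z = a * z * a⁻¹ := rfl
    rw [e1, hag.eq]
    group
  have hfixH : ∀ z : H, z ∈ fixS (MulAut.conj.comp (Subgroup.zpowers y').subtype) ↔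
      y * (z : G) = z * y := by
    intro z
    rw [mem_fixS]
    constructor
    · intro hz
      have h2 := hz ⟨y', Subgroup.mem_zpowers y'⟩
      have e1 : (MulAut.conj.comp (Subgroup.zpowers y').subtype) ⟨y', Subgroup.mem_zpowers y'⟩ z =
        y' * z * y'⁻¹ := rfl
      rw [e1] at h2
      exact congrArg Subtype.val (mul_inv_eq_iff_eq_mul.mp h2)
    · rintro hz ⟨a, ha⟩
      have hz' : Commute y' z := Subtype.ext hz
      have hag : Commute a z := by
        obtain ⟨j, rfl⟩ := Subgroup.mem_zpowers_iff.mp ha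
        exact Commute.zpow_left hz' j
      have e1 : (MulAut.conj.comp (Subgroup.zpowers y').subtype) ⟨a, ha⟩ z = a * z * a⁻¹ := rfl
      rw [e1, hag.eq]
      group
  have hcomp : ∑ z ∈ Finset.univ.filter (· ∈ fixS (MulAut.conj.comp (Subgroup.zpowers y).subtype)),
        red O (ci x z * χ (z * s)) =
      ∑ z ∈ Finset.univ.filter (· ∈ fixS (MulAut.conj.comp (Subgroup.zpowers y').subtype)),
        red O (ε : ℂ) * red O (f' z * ψ (z * g')) := by
    refine Finset.sum_bij' (fun z hz => (⟨z, hcH z (hfixG z (Finset.mem_filter.mp hz).2)⟩ : H))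
      (fun z _ => (z : G)) ?_ ?_ ?_ ?_ ?_
    · intro z hz
      exact Finset.mem_filter.mpr ⟨Finset.mem_univ _, (hfixH _).mpr (hfixG z (Finset.mem_filter.mp hz).2)⟩
    · intro z hz
      exact Finset.mem_filter.mpr ⟨Finset.mem_univ _, hfixG' _ ((hfixH z).mp (Finset.mem_filter.mp hz).2)⟩
    · intro z hz
      rfl
    · intro z hz
      rfl
    · intro z hz
      have hcz := hfixG z (Finset.mem_filter.mp hz).2
      have hzH := hcH z hcz
      change red O (ci x z * χ (z * s)) = red O (ε : ℂ) * red O (ci x z * ψ ((⟨z, hzH⟩ : H) * g'))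
      have hczs : Commute y (z * s) := (Commute.mul_right hcz hys)
      rw [red_mul (hfO z) (hχO _), red_mul (hfO z) (hψO _),
        hredv (z * s) (H.mul_mem hzH hsH) hczs, ← mul_assoc, ← mul_assoc,
        mul_comm (red O (ci x z))]
      rfl
  rw [hA2, hcomp, ← Finset.mul_sum, ← hB2, ← hB, h1] at hA
  have h5 : red O (omega χ x) = red O (Om f' ψ) := by
    have h6 : red O (ε : ℂ) * red O (ψ g') ≠ 0 := mul_ne_zero hε0 hψs
    apply mul_right_cancel₀ h6
    rw [hA]
    ring
  have h6 : Om f' ψ = ∑ᶠ z : {z : H // IsConj x (z : G)}, ψ z / ψ 1 := by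
    unfold Om
    rw [finsum_eq_sum_of_fintype, Finset.sum_div]
    have h7 : ∀ z : H, f' z * ψ z / ψ 1 = if IsConj x (z : G) then ψ z / ψ 1 else 0 := by
      intro z
      change (if IsConj x (z : G) then (1 : ℂ) else 0) * ψ z / ψ 1 = _
      split_ifs <;> simp
    rw [Finset.sum_congr rfl fun z _ => h7 z, ← Finset.sum_filter]
    exact Finset.sum_subtype (p := fun z : H => IsConj x (z : G))
      (Finset.univ.filter (fun z : H => IsConj x (z : G))) (by simp) (fun z => ψ z / ψ 1)
  rw [← h6]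
  exact (red_eq_iff (hχ.omega_mem O x) (Om_mem hψ hf'cl fun z => hfO z)).mp h5

end Pool.Agent.Q239.TC
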