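import Pool.Agent.Q17.TC.Stm3
import Pool.Agent.Q239.TC.MEM

set_option autoImplicit false
set_option linter.unusedSectionVars false

/-! Job TRN of project TC: transitivity of block induction. -/

open scoped BigOperators Classical
open Pool.Agent.Helper884 Representation Pool.Agent.H254R3.IN Pool.Agent.Y62 Pool.Agent.Q21.CO
  Pool.Agent.Q17.TC

noncomputable section

namespace Pool.Agent.Q239.TC

variable {G : Type} [Group G] [Fintype G]

/-- the induced sum as a sum over elements -/
lemma ind_finsum {H : Subgroup G} (θ : H → ℂ) (x : G) :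
    ∑ᶠ y : {y : H // IsConj x (y : G)}, θ y / θ 1 =
      ∑ y ∈ Finset.univ.filter (fun y : H => IsConj x (y : G)), θ y / θ 1 := by
  rw [finsum_eq_sum_of_fintype,
    ← Finset.sum_subtype (p := fun y : H => IsConj x (y : G))
      (Finset.univ.filter (fun y : H => IsConj x (y : G))) (by simp) (fun y => θ y / θ 1)]

/-- the induced sum is integral and its residue is the sum over the classes -/
lemma ind_classes {O : ValuationSubring ℂ} {H : Subgroup G} {θ : H → ℂ} (hθ : IsIrr θ) (x : G) :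
    ∑ᶠ y : {y : H // IsConj x (y : G)}, θ y / θ 1 ∈ O ∧
    red O (∑ᶠ y : {y : H // IsConj x (y : G)}, θ y / θ 1) =
      ∑ L ∈ Finset.univ.filter (fun L : ConjClasses H => IsConj x ((rep L : H) : G)),
        red O (omega θ (rep L)) := by
  have h1 := sum_pred (fun y : H => IsConj x (y : G))
    (fun y z hyz => ⟨fun h => h.trans (conj_coe' hyz), fun h => h.trans (conj_coe' hyz).symm⟩) hθ
  rw [ind_finsum, h1]
  exact ⟨sum_mem fun L _ => hθ.omega_mem O _, red_sum _ _ (fun L _ => hθ.omega_mem O _)⟩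

/-- Brauer induction in stages at the level of sums -/
lemma two_step {O : ValuationSubring ℂ} {H : Subgroup G} {M : Subgroup H} {ψ : H → ℂ}
    {θ : M → ℂ} (hψ : IsIrr ψ) (hθ : IsIrr θ)
    (h : ∀ z : H, omega ψ z - ∑ᶠ y : {y : M // IsConj z (y : H)}, θ y / θ 1 ∈ O.nonunits)
    (x : G) :
    red O (∑ᶠ y : {y : H // IsConj x (y : G)}, ψ y / ψ 1) =
      ∑ L ∈ Finset.univ.filter (fun L : ConjClasses M => IsConj x (((rep L : M) : H) : G)),
        red O (omega θ (rep L)) := by
  rw [(ind_classes hψ x).2]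
  have h1 : ∀ K ∈ Finset.univ.filter (fun K : ConjClasses H => IsConj x ((rep K : H) : G)),
      red O (omega ψ (rep K)) = ∑ L ∈ Finset.univ.filter (fun L : ConjClasses M =>
        IsConj x (((rep L : M) : H) : G)), if IsConj (rep K) ((rep L : M) : H) then
          red O (omega θ (rep L)) else 0 := by
    intro K hK
    rw [induced_sum' hψ hθ (h (rep K)), Finset.sum_filter, Finset.sum_filter]
    refine Finset.sum_congr rfl fun L _ => ?_
    by_cases h2 : IsConj (rep K) ((rep L : M) : H)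
    · rw [if_pos h2, if_pos ((Finset.mem_filter.mp hK).2.trans (conj_coe' h2))]
    · rw [if_neg h2, ite_self]
  rw [Finset.sum_congr rfl h1, Finset.sum_comm]
  refine Finset.sum_congr rfl fun L hL => ?_
  have hL' := (Finset.mem_filter.mp hL).2
  rw [Finset.sum_eq_single (ConjClasses.mk ((rep L : M) : H))]
  · rw [if_pos (rep_mk _)]
  · intro K _ hne
    rw [if_neg]
    intro hc
    exact hne ((mk_eq_iff _ _).mpr hc).symm
  · intro hn
    exfalso
    apply hn
    refine Finset.mem_filter.mpr ⟨Finset.mem_univ _, ?_⟩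
    exact hL'.trans (conj_coe' (rep_mk ((rep L : M) : H))).symm

theorem t_TRN : S_TRN := by
  intro G _ _ p hp O hpO H D hD hN B b b₀ hB hb h0 h1 χ hχ ψ hψ x
  obtain ⟨θ₀, hθ₀⟩ := h0.1.nonempty
  have hχi := hB.irr χ hχ
  have hψi := hb.irr ψ hψ
  have hθi := h0.1.irr θ₀ hθ₀
  set θ : NN (D.subgroupOf H) → ℂ := fun x => θ₀ (eN hD hN x) with hθ
  have hmem : θ ∈ {θ | ∃ θ₀ ∈ b₀, θ = fun x => θ₀ (eN hD hN x)} := ⟨θ₀, hθ₀, rfl⟩
  have hθi' := h1.1.irr θ hmem
  obtain ⟨e1, e2⟩ := red_congr (hχi.omega_mem O x) (h0.2.2 χ hχ θ₀ hθ₀ x)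
  have e3 := two_step hψi hθi' (fun z => h1.2.2 ψ hψ θ hmem z) x
  obtain ⟨e4, -⟩ := ind_classes (O := O) hψi x
  rw [← red_eq_iff (hχi.omega_mem O x) e4, e2, e3]
  -- both sides are sums over elements
  have e5 := sum_pred (fun y : NN (D.subgroupOf H) => IsConj x ((y : H) : G))
    (fun y z hyz => ⟨fun h => h.trans (conj_coe' (conj_coe' hyz)),
      fun h => h.trans (conj_coe' (conj_coe' hyz)).symm⟩) hθi'
  rw [← red_sum _ _ (fun L _ => hθi'.omega_mem O _), ← e5]
  congr 1
  rw [ind_finsum]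
  refine Finset.sum_equiv (eN hD hN).symm.toEquiv ?_ ?_
  · intro y
    simp only [Finset.mem_filter, Finset.mem_univ, true_and]
    exact Iff.rfl
  · intro y _
    rfl

end Pool.Agent.Q239.TC
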