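import Pool.Agent.Q17.TC.Stm3
import Pool.Agent.Q239.TC.MEM
import Pool.Agent.Q239.TC.IND
import Pool.Agent.Q239.TC.TRN

set_option autoImplicit false
set_option linter.unusedSectionVars false

/-! Job BLK of project TC: blocks and heights under a congruence. -/

open scoped BigOperators Classical
open Pool.Agent.Helper884 Representation Pool.Agent.H254R3.IN Pool.Agent.Y62 Pool.Agent.Q21.CO
  Pool.Agent.Q17.TC

noncomputable section

namespace Pool.Agent.Q239.TC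

variable {G : Type} [Group G] [Fintype G]

/-- the centraliser of an element of `H` -/
lemma card_cent_sub {H : Subgroup G} (s : H) :
    Nat.card (H.subgroupOf (Subgroup.centralizer ({(s : G)} : Set G))) =
      Nat.card (Subgroup.centralizer ({s} : Set H)) := by
  refine Nat.card_congr ⟨fun x => ⟨⟨(x.1 : G), Subgroup.mem_subgroupOf.mp x.2⟩, ?_⟩,
    fun x => ⟨⟨((x : H) : G), ?_⟩, ?_⟩, fun _ => rfl, fun _ => rfl⟩
  · rw [Subgroup.mem_centralizer_singleton_iff]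
    exact Subtype.ext (Subgroup.mem_centralizer_singleton_iff.mp x.1.2)
  · rw [Subgroup.mem_centralizer_singleton_iff]
    exact congrArg Subtype.val (Subgroup.mem_centralizer_singleton_iff.mp x.2)
  · rw [Subgroup.mem_subgroupOf]
    exact (x : H).2

lemma card_subOf {H D : Subgroup G} (h : D ≤ H) : Nat.card (D.subgroupOf H) = Nat.card D :=
  Nat.card_congr (Subgroup.subgroupOfEquivOfLe h).toEquiv

lemma mem_cent_sub {H D : Subgroup G} {s : H} (hs : (s : G) ∈ Subgroup.centralizer (D : Set G)) :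
    s ∈ Subgroup.centralizer (D.subgroupOf H : Set H) := by
  rw [Subgroup.mem_centralizer_iff]
  intro d hd
  exact Subtype.ext (Subgroup.mem_centralizer_iff.mp hs (d : G) (Subgroup.mem_subgroupOf.mp hd))

lemma kk_sub {p : ℕ} [hp : Fact p.Prime] {H D : Subgroup G} (hD : IsPGroup p D) (hDH : D ≤ H)
    (hfus : ∀ g : G, (∀ x ∈ D, g⁻¹ * x * g ∈ H) → g ∈ H) {s : H}
    (hs : (s : G) ∈ Subgroup.centralizer (D : Set G)) :
    kk (D.subgroupOf H) s ≡ kk D (s : G) [MOD p] := by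
  set Z := Subgroup.centralizer ({(s : G)} : Set G) with hZ
  have hle : D ≤ Z := le_centralizer hs
  let act : MulAction D (Z ⧸ H.subgroupOf Z) :=
    MulAction.compHom (Z ⧸ H.subgroupOf Z) (Subgroup.inclusion hle)
  have h1 := hD.card_modEq_card_fixedPoints (Z ⧸ H.subgroupOf Z)
  have h2 : MulAction.fixedPoints D (Z ⧸ H.subgroupOf Z) = {(QuotientGroup.mk 1)} := by
    ext q
    rw [MulAction.mem_fixedPoints, Set.mem_singleton_iff]
    constructor
    · intro h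
      obtain ⟨c, rfl⟩ := QuotientGroup.mk_surjective q
      have h3 : (c : G) ∈ H := by
        apply hfus
        intro x hx
        have h4 : (QuotientGroup.mk (Subgroup.inclusion hle ⟨x, hx⟩ * c) : Z ⧸ H.subgroupOf Z) =
            QuotientGroup.mk c := h ⟨x, hx⟩
        have h5 := QuotientGroup.eq.mp h4.symm
        rw [Subgroup.mem_subgroupOf] at h5
        have h6 : ((c⁻¹ * (Subgroup.inclusion hle ⟨x, hx⟩ * c) : Z) : G) =
            (c : G)⁻¹ * x * c := by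
          push_cast
          rw [mul_assoc]
          rfl
        rw [← h6]
        exact h5
      rw [eq_comm, QuotientGroup.eq]
      rw [inv_one, one_mul, Subgroup.mem_subgroupOf]
      exact h3
    · rintro rfl d
      change (QuotientGroup.mk (Subgroup.inclusion hle d * 1) : Z ⧸ H.subgroupOf Z) = _
      rw [eq_comm, QuotientGroup.eq]
      rw [inv_one, one_mul, mul_one, Subgroup.mem_subgroupOf]
      exact hDH d.2
  rw [h2] at h1
  have h3 : Nat.card ({(QuotientGroup.mk 1)} : Set (Z ⧸ H.subgroupOf Z)) = 1 := by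
    rw [Nat.card_eq_one_iff_unique]
    exact ⟨inferInstance, ⟨⟨_, rfl⟩⟩⟩
  rw [h3] at h1
  have h4 := Subgroup.card_eq_card_quotient_mul_card_subgroup (H.subgroupOf Z)
  rw [hZ, card_cent_sub s, ← kk_mul hs, ← kk_mul (mem_cent_sub hs), card_subOf hDH,
    ← mul_assoc] at h4
  have h5 : kk D (s : G) = Nat.card (Z ⧸ H.subgroupOf Z) * kk (D.subgroupOf H) s :=
    Nat.eq_of_mul_eq_mul_right (Nat.card_pos (α := D)) h4
  rw [h5]
  have h6 := h1.mul_right (kk (D.subgroupOf H) s)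
  rw [one_mul] at h6
  exact h6.symm

/-- the order of the defect group divides the order of the centraliser -/
lemma dvd_of_val {p : ℕ} [hp : Fact p.Prime] {O : ValuationSubring ℂ}
    (hpO : (p : ℂ) ∈ O.nonunits) {D : Subgroup G} (hD : IsPGroup p D) {ψ : G → ℂ} (hψ : IsIrr ψ)
    {s : G} (hs : s ∈ Subgroup.centralizer (D : Set G)) (hr : red O (ψ s) ≠ 0) {h : G}
    (hh : red O (omega ψ h) ≠ 0) :
    Nat.card D ∣ Nat.card (Subgroup.centralizer ({h} : Set G)) := by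
  obtain ⟨n, hn⟩ := IsPGroup.iff_card.mp hD
  rw [hn]
  apply dvd_of_div_mem hpO
  have e1 := hψ.val_eq s
  have e2 := hψ.val_eq h
  obtain ⟨a1, a2, a3⟩ := inv_mem_of_red_ne hr
  obtain ⟨b1, b2, b3⟩ := inv_mem_of_red_ne hh
  have e3 : (Nat.card (Subgroup.centralizer ({s} : Set G)) : ℂ) = kk D s * Nat.card D := by
    exact_mod_cast (kk_mul hs).symm
  have hG0 : (Nat.card G : ℂ) ≠ 0 := by exact_mod_cast Nat.card_pos.ne'
  have hD0 : (Nat.card D : ℂ) ≠ 0 := by exact_mod_cast Nat.card_pos.ne'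
  have e4 : ((Nat.card (Subgroup.centralizer ({h} : Set G)) : ℕ) : ℂ) / (p : ℂ) ^ n =
      ψ h * omega ψ s * kk D s * (ψ s)⁻¹ * (omega ψ h)⁻¹ := by
    have e5 : (p : ℂ) ^ n = Nat.card D := by rw [hn]; push_cast; rfl
    rw [e5]
    have e6 : (Nat.card (Subgroup.centralizer ({h} : Set G)) : ℂ) * (ψ s) * (omega ψ h) =
        Nat.card D * (ψ h * omega ψ s * kk D s) := by
      rw [e3] at e1
      conv_lhs => rw [e1]
      conv_rhs => rw [e2]
      field_simp
    rw [div_eq_iff hD0]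
    field_simp
    rw [e6]
    ring
  rw [e4]
  exact O.mul_mem _ _ (O.mul_mem _ _ (O.mul_mem _ _ (O.mul_mem _ _ (hψ.val_mem O h)
    (hψ.omega_mem O s)) (natCast_mem' _)) a2) b2

theorem t_BLK : S_BLK := by
  intro G _ _ p hp O hpO H y hy hgy D hD hDH hyD B b hB hDB hb hDb b₀ hb₀ hBb s hs hks hsB
  have := charP_RF hpO
  have hfus : ∀ g : G, (∀ x ∈ D, g⁻¹ * x * g ∈ H) → g ∈ H := fun g h => hgy g (h y hyD)
  have hcH : ∀ g, Commute y g → g ∈ H := by
    intro g hg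
    apply hgy
    have e : g⁻¹ * y * g = y := by
      rw [mul_assoc, hg.eq]
      group
    rw [e]
    exact hDH hyD
  have hys : Commute y (s : G) := Subgroup.mem_centralizer_iff.mp hs.2 y hyD
  have hsC := mem_cent_sub (H := H) hs.2
  have hmod := kk_sub hD hDH hfus hs.2
  have hkk : ¬ p ∣ kk (D.subgroupOf H) s := fun h => hks ((hmod.dvd_iff dvd_rfl).mp h)
  have hDHp : IsPGroup p (D.subgroupOf H) := hD.of_equiv (Subgroup.subgroupOfEquivOfLe hDH).symm
  obtain ⟨χ₁, hχ₁⟩ := hB.nonempty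
  obtain ⟨ψ₁, hψ₁⟩ := hb.nonempty
  obtain ⟨θ₁, hθ₁⟩ := hb₀.1.nonempty
  have hχ₁i := hB.irr χ₁ hχ₁
  have hψ₁i := hb.irr ψ₁ hψ₁
  have hθ₁i := hb₀.1.irr θ₁ hθ₁
  have hdvb : ∀ ψ ∈ b, ∀ h : H, red O (omega ψ h) ≠ 0 →
      Nat.card D ∣ Nat.card (Subgroup.centralizer ({h} : Set H)) := by
    intro ψ hψ h hne
    by_contra hcon
    apply hne
    refine lam_zero_G hpO hDHp (hb.irr ψ hψ) hθ₁i (hb₀.2.2 ψ hψ θ₁ hθ₁) ?_
    intro t ht htc
    apply hcon
    rw [card_centralizer_congr ht, ← card_subOf hDH]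
    exact Subgroup.card_dvd_of_le (le_centralizer htc)
  have part1 : ∀ χ ∈ B, ∀ ψ ∈ b, red O (omega ψ s) = red O (omega χ (s : G)) := by
    intro χ hχ ψ hψ
    exact (stepA hD hfus (hB.irr χ hχ) (hb.irr ψ hψ) (hBb χ hχ ψ hψ) (hdvb ψ hψ) hs.2 hks).symm
  have hsb : ∀ ψ ∈ b, red O (omega ψ s) ≠ 0 := fun ψ hψ => by
    rw [part1 χ₁ hχ₁ ψ hψ]
    exact hsB χ₁ hχ₁
  have huB : ∀ χ ∈ B, uu D χ ∈ O := fun χ hχ => uu_mem hpO hB hDB hχ
  have hub : ∀ ψ ∈ b, uu (D.subgroupOf H) ψ ∈ O := fun ψ hψ => uu_mem hpO hb hDb hψ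
  have hht : ∀ χ ∈ B, (red O (χ s) ≠ 0 ↔ red O (uu D χ) ≠ 0) := fun χ hχ =>
    height_val hpO (hB.irr χ hχ) (huB χ hχ) hs.2 hks (hsB χ hχ)
  have hht' : ∀ ψ ∈ b, (red O (ψ s) ≠ 0 ↔ red O (uu (D.subgroupOf H) ψ) ≠ 0) := fun ψ hψ =>
    height_val hpO (hb.irr ψ hψ) (hub ψ hψ) hsC hkk (hsb ψ hψ)
  refine ⟨part1, fun ψ hψ h => (hht' ψ hψ).mpr h, ?_⟩
  intro χ ψ ε hχ hψ hε hcong
  have hεne : red O (ε : ℂ) ≠ 0 := by
    have h1 : (ε : ℂ) * ε = 1 := by
      rcases hε with h | h <;> rw [h] <;> norm_num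
    exact red_ne_zero_of_mul (intCast_mem' ε) (intCast_mem' ε) h1
  have hrs : red O (χ s) = red O (ε : ℂ) * red O (ψ s) := by
    rw [← red_mul (intCast_mem' ε) (hψ.val_mem O _)]
    exact (red_congr (hχ.val_mem O _) (hcong s s.2 hys)).2
  refine ⟨⟨?_, ?_⟩, ?_⟩
  · rintro ⟨hχB, hu⟩
    have h1 : red O (χ s) ≠ 0 := (hht χ hχB).mpr hu
    have h2 := t_IND G p O hpO H y hy hcH χ ψ hχ hψ ε hcong s hys h1
    have h3 : red O (ψ s) ≠ 0 := by
      intro h0
      rw [h0, mul_zero] at hrs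
      exact h1 hrs
    have h4 : ∀ h : H, red O (omega ψ h) ≠ 0 →
        Nat.card D ∣ Nat.card (Subgroup.centralizer ({h} : Set H)) := by
      intro h hh
      have := dvd_of_val hpO hDHp hψ hsC h3 hh
      rwa [card_subOf hDH] at this
    have h5 := t_MEM G p O hpO H D hD hDH hfus χ hχ ψ ψ₁ hψ hψ₁i h2 (hBb χ hχB ψ₁ hψ₁) h4
      (hdvb ψ₁ hψ₁) s hs.2 hks (hsB χ hχB)
    have h6 : ψ ∈ b := block_of_red hb hψ₁ hψ h5
    exact ⟨h6, (hht' ψ h6).mp h3⟩
  · rintro ⟨hψb, hu⟩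
    have h3 : red O (ψ s) ≠ 0 := (hht' ψ hψb).mpr hu
    have h1 : red O (χ s) ≠ 0 := by
      rw [hrs]
      exact mul_ne_zero hεne h3
    have h2 := t_IND G p O hpO H y hy hcH χ ψ hχ hψ ε hcong s hys h1
    have h4 : ∀ x, red O (omega χ x) = red O (omega χ₁ x) := by
      intro x
      rw [(red_congr (hχ.omega_mem O x) (h2 x)).2,
        (red_congr (hχ₁i.omega_mem O x) (hBb χ₁ hχ₁ ψ hψb x)).2]
    have h5 : χ ∈ B := block_of_red hB hχ₁ hχ h4
    exact ⟨h5, (hht χ h5).mp h1⟩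
  · intro hχB hψb
    have h4 := hrs
    rw [val_eq_kk hχ (IsConj.refl (s : G)) hs.2, val_eq_kk hψ (IsConj.refl s) hsC,
      red_mul (O.mul_mem _ _ (hχ.omega_mem O _) (huB χ hχB)) (natCast_mem' _),
      red_mul (O.mul_mem _ _ (hψ.omega_mem O _) (hub ψ hψb)) (natCast_mem' _),
      red_mul (hχ.omega_mem O _) (huB χ hχB), red_mul (hψ.omega_mem O _) (hub ψ hψb),
      red_natCast, red_natCast, part1 χ hχB ψ hψb,
      (CharP.natCast_eq_natCast (RF O) p).mpr hmod] at h4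
    have h5 : ((kk D (s : G) : ℕ) : RF O) ≠ 0 := fun h =>
      hks ((CharP.cast_eq_zero_iff (RF O) p (kk D (s : G))).mp h)
    have h6 := mul_ne_zero (hsB χ hχB) h5
    apply mul_left_cancel₀ h6
    calc red O (omega χ s) * (kk D (s : G) : RF O) * red O (uu D χ)
        = red O (omega χ s) * red O (uu D χ) * (kk D (s : G) : RF O) := by ring
      _ = _ := by rw [h4]; ring

end Pool.Agent.Q239.TC
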