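import Pool.Agent.Q17.TC.Stm2
import Pool.Agent.Q17.TC.IRN
import Pool.Agent.Q277.TC.Kc

set_option autoImplicit false
set_option linter.unusedSectionVars false

/-! Job KH of project TC: the semidirect product. -/

open scoped BigOperators Classical
open Pool.Agent.Helper884 Representation Pool.Agent.H254R3.IN Pool.Agent.Y62 Pool.Agent.Q21.CO
  Pool.Agent.Q17.TC

noncomputable section

namespace Pool.Agent.Q239.TC

/-- the action of a cyclic group on a normal subgroup by conjugation -/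
def act {G : Type} [Group G] (K : Subgroup G) [K.Normal] (h : G) :
    Subgroup.zpowers h →* MulAut K :=
  MulAut.conjNormal.comp (Subgroup.zpowers h).subtype

lemma act_apply {G : Type} [Group G] (K : Subgroup G) [K.Normal] (h : G)
    (c : Subgroup.zpowers h) (k : K) : ((act K h c k : K) : G) = c * k * (c : G)⁻¹ := rfl

/-- the semidirect product -/
abbrev Gam {G : Type} [Group G] (K : Subgroup G) [K.Normal] (h : G) : Type :=
  K ⋊[act K h] (Subgroup.zpowers h)

instance instFG {G : Type} [Group G] [Fintype G] (K : Subgroup G) [K.Normal] (h : G) :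
    Fintype (Gam K h) := by
  haveI : Fintype K := Fintype.ofFinite _
  haveI : Fintype (Subgroup.zpowers h) := Fintype.ofFinite _
  exact Fintype.ofEquiv _ SemidirectProduct.equivProd.symm

lemma card_Gam {G : Type} [Group G] [Fintype G] (K : Subgroup G) [K.Normal] (h : G) :
    Nat.card (Gam K h) = Nat.card K * Nat.card (Subgroup.zpowers h) := by
  rw [Nat.card_congr SemidirectProduct.equivProd, Nat.card_prod]

/-- a representation is irreducible if its composition with a homomorphism is -/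
lemma irr_of_comp {A B V : Type} [Group A] [Group B] [AddCommGroup V] [Module ℂ V]
    (ρ : Representation ℂ B V) (f : A →* B) (σ : Representation ℂ A V) (hσ : ∀ a, σ a = ρ (f a))
    (h : σ.IsIrreducible) : ρ.IsIrreducible := by
  let F : Subrepresentation ρ → Subrepresentation σ := fun S => ⟨S.toSubmodule, by
    intro a x hx
    rw [hσ]
    exact S.apply_mem_toSubmodule (f a) hx⟩
  have hF : ∀ S T, F S = F T → S = T := by
    intro S T hST
    have h1 : (F S).toSubmodule = (F T).toSubmodule := by rw [hST]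
    have h2 : S.toSubmodule = T.toSubmodule := h1
    cases S
    cases T
    simp only at h2
    subst h2
    rfl
  have h1 : IsSimpleOrder (Subrepresentation σ) := h
  have hbot : F ⊥ = ⊥ := rfl
  have htop : F ⊤ = ⊤ := rfl
  change IsSimpleOrder (Subrepresentation ρ)
  refine { exists_pair_ne := ⟨⊥, ⊤, fun hc => ?_⟩, eq_bot_or_eq_top := fun S => ?_ }
  · have h2 : (⊥ : Subrepresentation σ) = ⊤ := by rw [← hbot, ← htop, hc]
    exact bot_ne_top h2
  · rcases h1.eq_bot_or_eq_top (F S) with h2 | h2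
    · left
      exact hF _ _ (by rw [h2, hbot])
    · right
      exact hF _ _ (by rw [h2, htop])

section lin

variable {G : Type} [Group G] [Fintype G] {p : ℕ} [hp : Fact p.Prime] {N : Subgroup G} {y : G}
  {H : Subgroup G} {P : Sylow p G} (d : TD p N y H P)

include d

lemma lin_inv (l : KK N y →* ℂˣ) (hl : ∀ k : KK N y, l k = 1 ↔ (k : G) ∈ N)
    (g : G) (k k' : KK N y) (hk : (k' : G) = g * k * g⁻¹) : l k' = l k := by
  have hN := d.hN
  obtain ⟨n, hn, i, hi⟩ := d.gen k k.2
  have hK := d.normal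
  have e1 : k = ⟨n, d.N_le hn⟩ * ⟨y, d.y_mem⟩ ^ i := Subtype.ext hi.symm
  have h2 : g * y * g⁻¹ ∈ KK N y := hK.conj_mem y d.y_mem g
  have e2 : k' = ⟨g * n * g⁻¹, d.N_le (hN.conj_mem n hn g)⟩ * (⟨g * y * g⁻¹, h2⟩ : KK N y) ^ i := by
    apply Subtype.ext
    rw [hk, ← hi]
    change g * (n * y ^ i) * g⁻¹ = (g * n * g⁻¹) * (((⟨g * y * g⁻¹, h2⟩ : KK N y) ^ i : KK N y) : G)
    rw [Subgroup.coe_zpow]
    change g * (n * y ^ i) * g⁻¹ = (g * n * g⁻¹) * (g * y * g⁻¹) ^ i
    rw [conj_zpow]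
    group
  have e3 : l ⟨g * y * g⁻¹, h2⟩ = l ⟨y, d.y_mem⟩ := by
    have h3 : l (⟨g * y * g⁻¹, h2⟩ * ⟨y, d.y_mem⟩⁻¹) = 1 := (hl _).mpr (d.hcen g)
    rw [map_mul, map_inv, mul_inv_eq_one] at h3
    exact h3
  rw [e2, e1, map_mul, map_mul, map_zpow, map_zpow, e3,
    (hl ⟨n, d.N_le hn⟩).mpr hn, (hl ⟨g * n * g⁻¹, d.N_le (hN.conj_mem n hn g)⟩).mpr (hN.conj_mem n hn g)]

end lin

section gam

variable {G : Type} [Group G] [Fintype G] {p : ℕ} [hp : Fact p.Prime] {N : Subgroup G} {y : G}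
  {H : Subgroup G} {P : Sylow p G} (d : TD p N y H P) [hK : (KK N y).Normal] (h : G)

/-- `(k, c) ↦ k c` -/
def tot (K : Subgroup G) [K.Normal] (h : G) : Gam K h →* G :=
  SemidirectProduct.lift K.subtype (Subgroup.zpowers h).subtype (by
    intro g
    ext k
    rfl)

lemma tot_apply (K : Subgroup G) [K.Normal] (h : G) (x : Gam K h) : tot K h x = x.left * x.right :=
  rfl

include d in
/-- the linear character of the semidirect product -/
lemma exists_L (l : KK N y →* ℂˣ) (hl : ∀ k : KK N y, l k = 1 ↔ (k : G) ∈ N) :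
    ∃ L : Gam (KK N y) h →* ℂˣ, ∀ x, L x = l x.left := by
  refine ⟨SemidirectProduct.lift l 1 (by
    intro g
    ext k
    change ((l (act (KK N y) h g k) : ℂˣ) : ℂ) = ((MulAut.conj (1 : ℂˣ)) (l k) : ℂˣ)
    rw [map_one, MulAut.one_apply, lin_inv d l hl g k (act (KK N y) h g k) (act_apply _ _ _ _)]), ?_⟩
  intro x
  change l x.left * 1 = _
  rw [mul_one]

/-- the data of the semidirect product -/
structure TDG (p : ℕ) (N : Subgroup G) (y : G) (H : Subgroup G) [(KK N y).Normal] (h : G)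
    (N' : Subgroup (Gam (KK N y) h)) (y' : Gam (KK N y) h) (H' : Subgroup (Gam (KK N y) h)) : Prop
    where
  mN : ∀ x, x ∈ N' ↔ (x.left : G) ∈ N
  my : ∃ hy : y ∈ KK N y, y' = SemidirectProduct.inl ⟨y, hy⟩
  mH : ∀ x, x ∈ H' ↔ (x.left : G) ∈ H
  top : KK N' y' = ⊤
  td : ∃ P' : Sylow p (Gam (KK N y) h), TD p N' y' H' P'

include d in
lemma exists_TDG (hhH : h ∈ H) (hho : ¬ p ∣ orderOf h) :
    ∃ N' y' H', TDG p N y H h N' y' H' := by
  obtain ⟨l, hl, ho, s, ht⟩ := d.setup
  obtain ⟨L, hL⟩ := exists_L d h l hl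
  obtain ⟨Q, hQ, _⟩ := d.dat
  have hN := d.hN
  set y' : Gam (KK N y) h := SemidirectProduct.inl ⟨y, d.y_mem⟩ with hy'
  have hLN : ∀ x, x ∈ L.ker ↔ (x.left : G) ∈ N := by
    intro x
    rw [MonoidHom.mem_ker, hL, hl]
  have hcH : ∀ c : Subgroup.zpowers h, (c : G) ∈ H := fun c =>
    (Subgroup.zpowers_le.mpr hhH) c.2
  have hH' : ∀ x, x ∈ H.comap (tot (KK N y) h) ↔ (x.left : G) ∈ H := by
    intro x
    rw [Subgroup.mem_comap, tot_apply]
    exact Subgroup.mul_mem_cancel_right H (hcH _)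
  -- the Sylow subgroup
  have hp1 : IsPGroup p ((Q : Subgroup (KK N y)).map
      (SemidirectProduct.inl : KK N y →* Gam (KK N y) h)) := Q.2.map _
  have hcard : Nat.card ((Q : Subgroup (KK N y)).map
      (SemidirectProduct.inl : KK N y →* Gam (KK N y) h)) = Nat.card Q :=
    (Nat.card_congr ((Q : Subgroup (KK N y)).equivMapOfInjective _
      SemidirectProduct.inl_injective).toEquiv).symm
  have hidx : ¬ p ∣ ((Q : Subgroup (KK N y)).map
      (SemidirectProduct.inl : KK N y →* Gam (KK N y) h)).index := by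
    have h1 := Subgroup.card_mul_index ((Q : Subgroup (KK N y)).map
      (SemidirectProduct.inl : KK N y →* Gam (KK N y) h))
    rw [hcard, card_Gam, ← Subgroup.card_mul_index (Q : Subgroup (KK N y)), mul_assoc] at h1
    have h2 := Nat.eq_of_mul_eq_mul_left Nat.card_pos h1
    rw [h2, Nat.card_zpowers]
    intro h3
    rcases (Nat.Prime.dvd_mul hp.out).mp h3 with h4 | h4
    · exact Q.not_dvd_index h4
    · exact hho h4
  let P' : Sylow p (Gam (KK N y) h) := hp1.toSylow hidx
  have hP' : ∀ x, x ∈ P' ↔ ∃ q ∈ P, ∃ hq : q ∈ KK N y, x = SemidirectProduct.inl ⟨q, hq⟩ := by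
    intro x
    have h1 : x ∈ P' ↔ x ∈ (Q : Subgroup (KK N y)).map
      (SemidirectProduct.inl : KK N y →* Gam (KK N y) h) := Iff.rfl
    rw [h1, Subgroup.mem_map]
    constructor
    · rintro ⟨q, hq, rfl⟩
      rw [hQ] at hq
      exact ⟨q, hq, q.2, rfl⟩
    · rintro ⟨q, hq, hqK, rfl⟩
      refine ⟨⟨q, hqK⟩, ?_, rfl⟩
      rw [hQ]
      exact hq
  refine ⟨L.ker, y', H.comap (tot (KK N y) h), hLN, ⟨d.y_mem, rfl⟩, hH', ?_, P', ?_⟩
  · rw [eq_top_iff]
    intro x _
    obtain ⟨n, hn, i, hi⟩ := d.gen x.left x.left.2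
    have h1 : x * (y' ^ i)⁻¹ ∈ L.ker := by
      rw [MonoidHom.mem_ker, map_mul, map_inv, map_zpow, hL, hL]
      have e1 : x.left = ⟨n, d.N_le hn⟩ * ⟨y, d.y_mem⟩ ^ i := Subtype.ext hi.symm
      have e2 : y'.left = ⟨y, d.y_mem⟩ := rfl
      rw [e1, e2, map_mul, map_zpow, (hl ⟨n, d.N_le hn⟩).mpr hn, one_mul, mul_inv_cancel]
    have h2 : x = (x * (y' ^ i)⁻¹) * y' ^ i := by group
    rw [h2]
    exact Subgroup.mul_mem_sup h1 (Subgroup.zpow_mem_zpowers _ i)
  · refine ⟨?_, ?_, ?_, ?_, ?_, ?_, ?_, ?_⟩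
    · infer_instance
    · rw [hLN]
      exact d.hyN
    · rw [hLN]
      have : y' ^ p = SemidirectProduct.inl (⟨y, d.y_mem⟩ ^ p) := by rw [hy', map_pow]
      rw [this]
      exact d.hyp
    · intro g
      rw [MonoidHom.mem_ker, map_mul, map_mul, map_mul, map_inv, map_inv]
      rw [mul_comm (L g) (L y'), mul_assoc (L y'), mul_inv_cancel, mul_one, mul_inv_cancel]
    · rw [hP']
      exact ⟨y, d.hyP, d.y_mem, rfl⟩
    · intro x hx
      obtain ⟨q, hq, hqK, rfl⟩ := (hP' x).mp hx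
      rw [hH']
      exact d.hPH hq
    · intro g
      obtain ⟨n, hn, h', hh', e⟩ := d.hNH g.left
      have hh'K : h' ∈ KK N y := by
        have e1 : h' = n⁻¹ * g.left := by rw [e]; group
        rw [e1]
        exact Subgroup.mul_mem _ (Subgroup.inv_mem _ (d.N_le hn)) g.left.2
      refine ⟨SemidirectProduct.inl ⟨n, d.N_le hn⟩, (hLN _).mpr hn, ⟨⟨h', hh'K⟩, g.right⟩,
        (hH' _).mpr hh', ?_⟩
      ext
      · rw [SemidirectProduct.mul_left, SemidirectProduct.left_inl, SemidirectProduct.right_inl,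
          map_one, MulAut.one_apply]
        exact e
      · rw [SemidirectProduct.mul_right, SemidirectProduct.right_inl, one_mul]
    · intro x hx hyx n hn hc
      obtain ⟨q, hq, hqK, rfl⟩ := (hP' x).mp hx
      rw [hH']
      rw [hLN] at hn hyx
      have h1 : y⁻¹ * q ∈ N := by
        have e1 : (y'⁻¹ * SemidirectProduct.inl ⟨q, hqK⟩ : Gam (KK N y) h) =
            SemidirectProduct.inl (⟨y, d.y_mem⟩⁻¹ * ⟨q, hqK⟩) := by
          rw [hy', map_mul, map_inv]
        rw [e1] at hyx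
        exact hyx
      have hqN : q ∉ N := by
        intro hqN
        apply d.hyN
        have h2 := N.mul_mem hqN (N.inv_mem h1)
        have e2 : q * (y⁻¹ * q)⁻¹ = y := by group
        rwa [e2] at h2
      have hc2 := congrArg (tot (KK N y) h) hc.eq
      rw [map_mul, map_mul] at hc2
      have e3 : tot (KK N y) h (SemidirectProduct.inl ⟨q, hqK⟩) = q := by
        rw [tot_apply]
        exact mul_one q
      rw [e3] at hc2
      have h4 := (t_TI G p N y H P d).1 (tot (KK N y) h n) q (d.hPH hq) hqK hqN (by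
        have e4 : (tot (KK N y) h n)⁻¹ * q * tot (KK N y) h n = q := by
          rw [mul_assoc, ← hc2]
          group
        rw [e4]
        exact d.hPH hq)
      rw [tot_apply] at h4
      exact (Subgroup.mul_mem_cancel_right H (hcH _)).mp h4

end gam

end Pool.Agent.Q239.TC
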