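import Pool.Agent.Q239.TC.KH1

set_option autoImplicit false
set_option linter.unusedSectionVars false

/-! Job KH of project TC: restriction of a character known outside a normal subgroup. -/

open scoped BigOperators Classical
open Pool.Agent.Helper884 Representation Pool.Agent.H254R3.IN Pool.Agent.Y62 Pool.Agent.Q21.CO
  Pool.Agent.Q17.TC

noncomputable section

namespace Pool.Agent.Q239.TC

lemma irr_key {M T : Type} [Group M] [Fintype M] [Group T] [Fintype T] (j : M →* T)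
    (hj : Function.Injective j) (hnorm : j.range.Normal) {ψ : T → ℂ} (hψ : IsIrr ψ) {η : M → ℂ}
    (hη : IsIrr η) (ε : ℂ) (hε : ε * ε = 1) (μ : M →* ℂˣ) (p : ℕ) (hp : p ≠ 0)
    (hμ : ∀ x, μ x ^ p = 1) (hval : ∀ x, μ x ≠ 1 → ψ (j x) = ε * η x)
    (hne : ∃ x, μ x ≠ 1 ∧ η x ≠ 0)
    (hinv : ∀ (t : T) (x x' : M), j x' = t * j x * t⁻¹ → η x' = η x ∧ μ x' = μ x) :
    IsIrr (fun x => ψ (j x)) := by
  obtain ⟨x₀, hx1, hx2⟩ := hne
  have hε0 : ε ≠ 0 := fun h => by rw [h, mul_zero] at hε; exact zero_ne_one hε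
  have hη1 : IsIrr (fun x => ((μ x : ℂˣ) : ℂ) * η x) := irr_twist hη μ
  have hdiff : η ≠ fun x => ((μ x : ℂˣ) : ℂ) * η x := by
    intro h
    have h1 : η x₀ = ((μ x₀ : ℂˣ) : ℂ) * η x₀ := congrFun h x₀
    have h2 : ((μ x₀ : ℂˣ) : ℂ) = 1 := by
      have h3 : (((μ x₀ : ℂˣ) : ℂ) - 1) * η x₀ = 0 := by rw [sub_mul, one_mul, ← h1, sub_self]
      rcases mul_eq_zero.mp h3 with h4 | h4
      · exact sub_eq_zero.mp h4
      · exact absurd h4 hx2
    exact hx1 (Units.ext h2)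
  -- one of the two multiplicities is not zero
  have hkey : IC.B (fun x => ψ (j x)) η - IC.B (fun x => ψ (j x)) (fun x => ((μ x : ℂˣ) : ℂ) * η x) =
      ε * (IC.B η η - IC.B η (fun x => ((μ x : ℂˣ) : ℂ) * η x)) := by
    unfold IC.B
    rw [← mul_sub, ← mul_sub, ← Finset.sum_sub_distrib, ← Finset.sum_sub_distrib,
      mul_left_comm ε]
    congr 1
    rw [Finset.mul_sum]
    refine Finset.sum_congr rfl fun x _ => ?_
    change ψ (j x) * η x⁻¹ - ψ (j x) * (((μ x⁻¹ : ℂˣ) : ℂ) * η x⁻¹) =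
      ε * (η x * η x⁻¹ - η x * (((μ x⁻¹ : ℂˣ) : ℂ) * η x⁻¹))
    by_cases h1 : μ x = 1
    · have h2 : μ x⁻¹ = 1 := by rw [map_inv, h1, inv_one]
      rw [h2]
      simp
    · rw [hval x h1]
      ring
  rw [IC.B_irr hη hη, IC.B_irr hη hη1, if_pos rfl, if_neg hdiff, sub_zero, mul_one] at hkey
  obtain ⟨ν, hν1, hν2, hν3⟩ : ∃ ν : M →* ℂˣ, IC.B (fun x => ψ (j x))
      (fun x => ((ν x : ℂˣ) : ℂ) * η x) ≠ 0 ∧ (∀ x, ν x ^ p = 1) ∧
      ∀ (t : T) (x x' : M), j x' = t * j x * t⁻¹ → ν x' = ν x := by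
    by_cases h1 : IC.B (fun x => ψ (j x)) (fun x => ((μ x : ℂˣ) : ℂ) * η x) = 0
    · refine ⟨1, ?_, ?_, ?_⟩
      · have h2 : (fun x => (((1 : M →* ℂˣ) x : ℂˣ) : ℂ) * η x) = η := by
          funext x
          simp
        rw [h2]
        rw [h1, sub_zero] at hkey
        rw [hkey]
        exact hε0
      · intro x
        simp
      · intro t x x' _
        simp
    · exact ⟨μ, h1, hμ, fun t x x' h => (hinv t x x' h).2⟩
  have hξ : IsIrr (fun x => ((ν x : ℂˣ) : ℂ) * η x) := irr_twist hη ν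
  obtain ⟨V, _, _, _, Y, hY, hYξ⟩ := id hξ
  let e : M ≃* j.range := MonoidHom.ofInjective hj
  have he : ∀ x, ((e x : j.range) : T) = j x := fun x => rfl
  let ρ : Representation ℂ j.range V := Y.comp (e.symm : j.range →* M)
  have hρa : ∀ x, ρ (e x) = Y x := by
    intro x
    change Y (e.symm (e x)) = Y x
    rw [e.symm_apply_apply]
  have hρ : ρ.IsIrreducible := by
    refine irr_transfer Y ρ (fun x => ⟨e x, 1, ?_⟩) (fun x => ⟨e.symm x, 1, ?_⟩) hY
    · rw [one_smul, hρa]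
    · rw [one_smul]
      rfl
  have hρc : ∀ x, ρ.character (e x) = ((ν x : ℂˣ) : ℂ) * η x := by
    intro x
    have h1 : ρ.character (e x) = Y.character x := by
      unfold Representation.character
      rw [hρa]
    rw [h1]
    exact (congrFun hYξ x).symm
  have hL : ∀ t : T, ∃ u : V ≃ₗ[ℂ] V, Lf ρ t u := by
    intro t
    apply t_LFT T V j.range ρ hρ t
    intro n
    obtain ⟨x, rfl⟩ := e.surjective n
    obtain ⟨x', hx'⟩ := e.surjective (MulAut.conjNormal t (e x))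
    have h1 : j x' = t * j x * t⁻¹ := by
      rw [← he x', hx', ← he x]
      rfl
    rw [← hx', hρc, hρc, hν3 t x x' h1, (hinv t x x' h1).1]
  have hB : IC.B (fun n : j.range => ψ n) ρ.character =
      IC.B (fun x => ψ (j x)) (fun x => ((ν x : ℂˣ) : ℂ) * η x) := by
    unfold IC.B
    rw [Nat.card_congr e.symm.toEquiv]
    congr 1
    symm
    refine Fintype.sum_equiv e.toEquiv _ _ fun x => ?_
    change ψ (j x) * (((ν x⁻¹ : ℂˣ) : ℂ) * η x⁻¹) = ψ ((e x : j.range) : T) * ρ.character (e x)⁻¹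
    rw [he, ← map_inv e, hρc]
  obtain ⟨n, hn0, hn⟩ := (t_SQ T V j.range ρ hρ hL).1 ψ hψ (by
    unfold Ov
    intro h0
    apply hν1
    rw [← hB]
    have hfi : ∀ i₁ i₂ : Fintype j.range, @IC.B j.range _ i₁ (fun n : j.range => ψ n) ρ.character =
        @IC.B j.range _ i₂ (fun n : j.range => ψ n) ρ.character := by
      intro i₁ i₂
      rw [Subsingleton.elim i₁ i₂]
    rw [hfi _ _]
    exact h0)
  have hn' : ∀ x, ψ (j x) = n * (((ν x : ℂˣ) : ℂ) * η x) := by
    intro x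
    rw [← hρc x, ← hn (e x), he]
  have hn1 : n = 1 := by
    have h1 := hn' x₀
    rw [hval x₀ hx1] at h1
    have h2 : ε = n * ((ν x₀ : ℂˣ) : ℂ) := by
      apply mul_right_cancel₀ hx2
      rw [h1]
      ring
    have h3 : ‖((ν x₀ : ℂˣ) : ℂ)‖ = 1 := by
      apply Complex.norm_eq_one_of_pow_eq_one (n := p) _ hp
      rw [← Units.val_pow_eq_pow_val, hν2]
      rfl
    have h4 : ‖ε‖ = 1 := by
      apply Complex.norm_eq_one_of_pow_eq_one (n := 2) _ two_ne_zero
      rw [pow_two, hε]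
    rw [h2, norm_mul, h3, mul_one] at h4
    have h5 : ‖(n : ℂ)‖ = (n : ℝ) := by simp
    rw [h5] at h4
    exact_mod_cast h4
  have h6 : (fun x => ψ (j x)) = fun x => ((ν x : ℂˣ) : ℂ) * η x := by
    funext x
    rw [hn' x, hn1]
    simp
  rw [h6]
  exact hξ

end Pool.Agent.Q239.TC
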